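import Pool.Agent.MP_f1fec5_al.Pol.Co

/-! Coordinates at the points of the plane, and the embedding of the model in a polynomial ring
over a field. -/

namespace Pool.Agent.MP_f1fec5_al.Pol

open Ideal Aff Aff.ModelAux Polynomial

universe u v

section Gen

variable {S T : Type*} [CommRing S] [CommRing T]

lemma rs_monic {M : S[X]} (hM : M.Monic) {b : S} (hb : b ∈ nonZeroDivisors S) : RS M (C b) := by
  refine ⟨hM.mem_nonZeroDivisors, mem_nonZeroDivisors_iff_left.2 fun r hr => ?_, fun r hr => ?_⟩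
  · ext n
    have := congrArg (fun p => p.coeff n) hr
    simp only [coeff_C_mul, coeff_zero] at this
    exact (mem_nonZeroDivisors_iff_left.1 hb) _ this
  · rw [← modByMonic_eq_zero_iff_dvd hM] at hr ⊢
    rw [mul_comm, ← smul_eq_C_mul, smul_modByMonic] at hr
    ext n
    have := congrArg (fun p => p.coeff n) hr
    simp only [coeff_smul, smul_eq_mul, coeff_zero] at this
    exact (mem_nonZeroDivisors_iff_left.1 hb) _ this

lemma rs_pt (g h : S) : RS (X - C (C h) : S[X][X]) (C (X - C g)) :=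
  rs_monic (monic_X_sub_C _) (monic_X_sub_C g).mem_nonZeroDivisors

/-- coefficientwise map on polynomials in two variables -/
noncomputable abbrev m2 (φ : S →+* T) : S[X][X] →+* T[X][X] := mapRingHom (mapRingHom φ)

lemma ev_m2 (φ : S →+* T) (g h : S) (f : S[X][X]) :
    (m2 φ f).evalEval (φ g) (φ h) = φ (f.evalEval g h) :=
  map_mapRingHom_evalEval φ f g h

lemma grid [IsDomain S] (t : ℕ → S) (ht : Function.Injective t) {f : S[X][X]}
    (hf : ∀ i j, f.evalEval (t i) (t j) = 0) : f = 0 := by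
  have key : ∀ p : S[X], (∀ j, p.eval (t j) = 0) → p = 0 := fun p hp =>
    eq_zero_of_infinite_isRoot p ((Set.infinite_range_of_injective ht).mono
      (by rintro _ ⟨j, rfl⟩; exact hp j))
  ext1 n
  refine key _ fun i => ?_
  have := key (f.map (evalRingHom (t i))) fun j => by rw [map_evalRingHom_eval]; exact hf i j
  simpa using congrArg (fun p => p.coeff n) this

end Gen

section Pt

variable {A : Type u} {D : Type v} [CommRing A] [CommRing D] (m : Model A[X][X] D)

/-- the coordinate homomorphism at a point -/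
noncomputable def sg (g h : A) : D →+* A :=
  sig m (rs_pt g h) (evalEvalRingHom g h) (by simp) (by simp)

lemma sg_surj [IsDomain D] (g h : A) : Function.Surjective (sg m g h) := fun a => by
  obtain ⟨d, hd⟩ := sig_surj m (rs_pt g h) (χ := evalEvalRingHom g h) (by simp)
    (by simp) (C (C a))
  exact ⟨d, hd.trans (evalEval_CC g h a)⟩

lemma sg_map [IsDomain D] (g h : A) {d : D} (hd : d ≠ 0) :
    (Iof m d).map (evalEvalRingHom g h) = span {sg m g h d} :=
  sig_map m (rs_pt g h) _ _ hd

lemma sg_compat {S : Type*} [CommRing S] (π : A →+* S) {g h g' h' : A} (hg : π g = π g')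
    (hh : π h = π h') (d : D) : π (sg m g h d) = π (sg m g' h' d) := by
  have := rr_compat m (rs_pt g h) (rs_pt g' h') (q := RingHom.ker (π.comp (evalEvalRingHom g h)))
    (II_le_ker (by simp) (by simp)) (II_le_ker (by simp [hh]) (by simp [hg]))
    (fun a b c d e => by
      have e' := congrArg (m2 π) e
      have := (rs_pt (π g) (π h)).h2 (m2 π a) (m2 π b) (m2 π c) (m2 π d) (by
        simpa [← hg, ← hh] using e')
      have hk : II (X - C (C (π h)) : S[X][X]) (C (X - C (π g))) ≤
          RingHom.ker (evalEvalRingHom (π g) (π h)) := II_le_ker (by simp) (by simp)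
      exact ⟨(ev_m2 π g h a).symm.trans (hk this.1), (ev_m2 π g h b).symm.trans (hk this.2)⟩) d
  rw [RingHom.mem_ker, map_sub, sub_eq_zero] at this
  refine this.trans ?_
  change π (evalEval g h _) = π (evalEval g' h' _)
  rw [← ev_m2, ← ev_m2, hg, hh]

end Pt

section Rigid

variable {A : Type u} {D : Type v} [CommRing A] [CommRing D] [IsDomain D]
  (m : Model A[X][X][X] D) {F : Type*} [Field F]

lemma exists_gen (φ : A →+* F)
    (hφ : ∀ s ∈ nonZeroDivisors A[X][X][X], m2 (mapRingHom φ) s ≠ 0) (d : D) :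
    ∃ f : F[X][X][X], (∀ g h, f.evalEval (g.map φ) (h.map φ) = (sg m g h d).map φ) ∧
      (d ≠ 0 → (Iof m d).map (m2 (mapRingHom φ)) = span {f}) := by
  by_cases hd : d = 0
  · exact ⟨0, by simp [hd], fun h => absurd hd h⟩
  obtain ⟨E, s, hs, e⟩ := Iof_inv m hd
  have e1 : (Iof m d).map (m2 (mapRingHom φ)) * E.map (m2 (mapRingHom φ)) =
      span {m2 (mapRingHom φ) s} := by rw [← Ideal.map_mul, e, map_span, Set.image_singleton]
  obtain ⟨f, hf⟩ := IsGCDMonoid.isPrincipal_of_exists_mul_ne_zero_isPrincipal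
    (J := (Iof m d).map (m2 (mapRingHom φ))) ⟨_, by rw [e1]; simpa using hφ s hs,
      by rw [e1]; infer_instance⟩
  rw [submodule_span_eq] at hf
  have hf0 : f ≠ 0 := by
    rintro rfl
    rw [hf] at e1
    exact hφ s hs (by simpa using e1.symm)
  have h1 : ∀ g h, ∃ c : F, c ≠ 0 ∧
      (sg m g h d).map φ = C c * f.evalEval (g.map φ) (h.map φ) := by
    intro g h
    have k : (mapRingHom φ).comp (evalEvalRingHom g h) =
        (evalEvalRingHom (g.map φ) (h.map φ)).comp (m2 (mapRingHom φ)) :=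
      RingHom.ext fun r => (ev_m2 (mapRingHom φ) g h r).symm
    have k2 := congrArg (fun χ => (Iof m d).map χ) k
    simp only [← Ideal.map_map, sg_map m g h hd, hf, map_span, Set.image_singleton] at k2
    obtain ⟨w, hw⟩ := span_singleton_eq_span_singleton.1 k2.symm
    obtain ⟨c, hc, e⟩ := Polynomial.isUnit_iff.1 w.isUnit
    exact ⟨c, hc.ne_zero, by rw [e, mul_comm]; exact hw.symm⟩
  choose c hc0 hc using h1
  have h2 : ∀ (M : A[X]) (g h g' h' : A[X]), f.evalEval (g.map φ) (h.map φ) ≠ 0 →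
      (f.evalEval (g.map φ) (h.map φ)).natDegree < (M.map φ).natDegree → M ∣ g - g' →
        M ∣ h - h' → c g h = c g' h' := by
    intro M g h g' h' hne hdeg hg hh
    let π := Ideal.Quotient.mk (span {M.map φ})
    have hπ : ∀ {a b : A[X]}, M ∣ a - b → π (a.map φ) = π (b.map φ) := fun hab => by
      rw [Ideal.Quotient.eq, mem_span_singleton, ← Polynomial.map_sub]
      exact map_dvd φ hab
    have k1 := sg_compat m (π.comp (mapRingHom φ)) (hπ hg) (hπ hh) d
    have k2 : π (f.evalEval (g'.map φ) (h'.map φ)) = π (f.evalEval (g.map φ) (h.map φ)) := by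
      rw [← ev_m2, ← ev_m2, hπ hg, hπ hh]
    simp only [RingHom.comp_apply, coe_mapRingHom, hc, map_mul, k2] at k1
    rw [← map_mul, ← map_mul, Ideal.Quotient.eq, mem_span_singleton, ← sub_mul, ← C_sub] at k1
    have k3 := eq_zero_of_dvd_of_natDegree_lt k1 ((natDegree_C_mul_le _ _).trans_lt hdeg)
    exact sub_eq_zero.1 (C_eq_zero.1 ((mul_eq_zero.1 k3).resolve_right hne))
  have h3 : ∀ g h g' h' : A[X], f.evalEval (g.map φ) (h.map φ) ≠ 0 →
      f.evalEval (g'.map φ) (h'.map φ) ≠ 0 → c g h = c g' h' := by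
    intro g h g' h' hne hne'
    let n := (f.evalEval (g.map φ) (h.map φ)).natDegree +
      (f.evalEval (g'.map φ) (h'.map φ)).natDegree + 1
    obtain ⟨a, b, hab⟩ : IsCoprime ((X : A[X]) ^ n) ((X - C 1) ^ n) :=
      IsCoprime.pow ⟨1, -1, by simp⟩
    rw [h2 (X ^ n) g h (g * b * (X - C 1) ^ n + g' * a * X ^ n)
      (h * b * (X - C 1) ^ n + h' * a * X ^ n) hne (by simp [n])
      ⟨(g - g') * a, by linear_combination -g * hab⟩ ⟨(h - h') * a, by linear_combination -h * hab⟩,
      h2 ((X - C 1) ^ n) g' h' (g * b * (X - C 1) ^ n + g' * a * X ^ n)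
      (h * b * (X - C 1) ^ n + h' * a * X ^ n) hne' (by
        rw [Polynomial.map_pow, Polynomial.map_sub, map_X, map_C, natDegree_pow,
          natDegree_X_sub_C]; simp [n])
      ⟨(g' - g) * b, by linear_combination -g' * hab⟩
      ⟨(h' - h) * b, by linear_combination -h' * hab⟩]
  have h4 : ∃ g h : A[X], f.evalEval (g.map φ) (h.map φ) ≠ 0 := by
    by_contra hcon
    push Not at hcon
    refine hf0 (grid (fun n => X ^ n) (fun i j hij => ?_) fun i j => ?_)
    · simpa using congrArg natDegree hij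
    · simpa using hcon (X ^ i) (X ^ j)
  obtain ⟨g0, h0, hne0⟩ := h4
  refine ⟨C (C (C (c g0 h0))) * f, fun g h => ?_, fun _ => ?_⟩
  · rw [hc, evalEval_mul, evalEval_C, eval_C]
    by_cases hne : f.evalEval (g.map φ) (h.map φ) = 0
    · simp [hne]
    · rw [h3 g h g0 h0 hne hne0]
  · rw [hf, span_singleton_mul_left_unit]
    exact (((Ne.isUnit (hc0 g0 h0)).map C).map C).map C

theorem exists_iota (φ : A[X] →+* F)
    (hφ : ∀ s ∈ nonZeroDivisors A[X][X][X], m2 φ s ≠ 0) :
    ∃ ι : D →+* F[X][X], Function.Injective ι ∧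
      (∀ d g h, (ι d).evalEval (φ g) (φ h) = φ (sg m g h d)) ∧
      ∀ d, d ≠ 0 → (Iof m d).map (m2 φ) = span {ι d} := by
  let φ₀ := φ.comp C
  let ev : F[X] →+* F := evalRingHom (φ X)
  have e0 : ev.comp (mapRingHom φ₀) = φ := by
    ext a <;> simp [ev, φ₀]
  have e0' : ∀ g, ev (g.map φ₀) = φ g := fun g => RingHom.congr_fun e0 g
  have e1 : (m2 ev).comp (m2 (mapRingHom φ₀)) = m2 φ := by
    rw [mapRingHom_comp, mapRingHom_comp, e0]
  choose f hf1 hf2 using exists_gen m φ₀ fun s hs h0 => hφ s hs (by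
    rw [← e1, RingHom.comp_apply, h0, map_zero])
  have uniq : ∀ {a b : F[X][X][X]}, (∀ g h : A[X], a.evalEval (g.map φ₀) (h.map φ₀) =
      b.evalEval (g.map φ₀) (h.map φ₀)) → a = b := fun {a b} hab =>
    sub_eq_zero.1 (grid (fun n => X ^ n) (fun i j hij => by simpa using congrArg natDegree hij)
      fun i j => by simpa [sub_eq_zero] using hab (X ^ i) (X ^ j))
  let ι₀ : D →+* F[X][X][X] := RingHom.mk' ⟨⟨f, uniq fun g h => by simp [hf1]⟩,
    fun a b => uniq fun g h => by simp [hf1, evalEval_mul]⟩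
    fun a b => uniq fun g h => by simp [hf1]
  have h2 : ∀ d, d ≠ 0 → (Iof m d).map (m2 φ) = span {m2 ev (f d)} := fun d hd => by
    rw [← e1, ← Ideal.map_map, hf2 d hd, map_span, Set.image_singleton]
  refine ⟨(m2 ev).comp ι₀, (injective_iff_map_eq_zero _).2 fun d hd => ?_, fun d g h => ?_, h2⟩
  · by_contra hd0
    obtain ⟨s, hs, hs'⟩ := (Iof_spec m hd0).1
    have := mem_map_of_mem (m2 φ) hs
    rw [h2 d hd0, show m2 ev (f d) = 0 from hd] at this
    exact hφ s hs' (by simpa using this)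
  · rw [← e0', ← e0', ← e0', ← hf1, ← ev_m2]
    rfl

end Rigid

/-- Regular polynomials survive a map whose kernel has a nonzero annihilator. -/
lemma m2_ne_zero {A S : Type*} [CommRing A] [CommRing S] (φ : A →+* S) {a : A} (ha : a ≠ 0)
    (h : ∀ c, φ c = 0 → a * c = 0) : ∀ s ∈ nonZeroDivisors A[X][X], m2 φ s ≠ 0 := by
  intro s hs h0
  have : C (C a) * s = 0 := by
    ext i j
    have := congrArg (fun p : S[X][X] => (p.coeff i).coeff j) h0
    simpa using h _ (by simpa using this)
  exact ha (by simpa using (mem_nonZeroDivisors_iff_right.1 hs) _ this)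

end Pool.Agent.MP_f1fec5_al.Pol
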