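import Pool.Agent.MP_f1fec5_al.Pol.Pt

/-! A valuation that is trivial on two subfields of codimension one. -/

namespace Pool.Agent.MP_f1fec5_al.Pol

open Polynomial AlgebraicIndependent Set

universe u v

lemma alg_mono {A B W : Type*} [CommRing A] [CommRing B] [CommRing W] [Algebra A W] [Algebra B W]
    (hA : Function.Injective (algebraMap A W))
    (h : ∀ a, algebraMap A W a ∈ range (algebraMap B W)) {z : W} (hz : IsAlgebraic A z) :
    IsAlgebraic B z := by
  obtain ⟨f, h0, hf⟩ := hz
  obtain ⟨g, hg⟩ := (mem_lifts (f := algebraMap B W) (f.map (algebraMap A W))).1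
    ((lifts_iff_coeff_lifts _).2 fun n => by rw [coeff_map]; exact h _)
  refine ⟨g, ?_, ?_⟩
  · rintro rfl
    exact h0 ((Polynomial.map_eq_zero_iff hA).1 (by rw [← hg, Polynomial.map_zero]))
  · rw [aeval_def, eval₂_eq_eval_map, hg, ← eval₂_eq_eval_map, ← aeval_def, hf]

lemma mem_of_integral {A W : Type*} [CommRing A] [Field W] [Algebra A W] (V : ValuationSubring W)
    (hA : ∀ a, algebraMap A W a ∈ V) {w : W} (hw : IsIntegral A w) : w ∈ V := by
  let _ : Algebra A V := ((algebraMap A W).codRestrict V hA).toAlgebra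
  have : IsScalarTower A V W := IsScalarTower.of_algebraMap_eq fun _ => rfl
  obtain ⟨y, rfl⟩ := IsIntegrallyClosed.algebraMap_eq_of_integral (hw.tower_top (A := V))
  exact y.2

section

variable {R W : Type*} [CommRing R] [IsDomain R] [Field W] [Algebra R W] [FaithfulSMul R W]

omit [IsDomain R] in
lemma mem_cl {s : Set W} {z : W} :
    z ∈ (matroid R W).closure s ↔ IsAlgebraic (Algebra.adjoin R s) z := by
  rw [matroid_closure_eq]
  rfl

variable (R) in
/-- the algebraic closure of the field generated by a set -/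
noncomputable def clF (s : Set W) : Subfield W :=
  { (Subalgebra.algebraicClosure (Algebra.adjoin R s) W).toSubring with
    inv_mem' := fun _ h => IsAlgebraic.inv h }

omit [IsDomain R] in
lemma mem_clF {s : Set W} {z : W} : z ∈ clF R s ↔ z ∈ (matroid R W).closure s := mem_cl.symm

omit [IsDomain R] [FaithfulSMul R W] in
lemma algebraMap_mem_clF (s : Set W) (r : R) : algebraMap R W r ∈ clF R s :=
  isAlgebraic_algebraMap (algebraMap R (Algebra.adjoin R s) r)

omit [IsDomain R] in
lemma mem_cl_of_alg {s : Set W} {z : W} (h : IsAlgebraic (clF R s) z) :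
    z ∈ (matroid R W).closure s := by
  rw [← Matroid.closure_closure, mem_cl]
  exact alg_mono Subtype.val_injective
    (fun a => ⟨⟨a, Algebra.subset_adjoin (mem_clF.1 a.2)⟩, rfl⟩) h

omit [IsDomain R] in
lemma cl_infinite [IsAlgClosed W] (s : Set W) : ((matroid R W).closure s).Infinite := by
  have : IsAlgClosed (clF R s) := IsAlgClosed.of_exists_root _ fun q hq hq' => by
    obtain ⟨z, hz⟩ := IsAlgClosed.exists_aeval_eq_zero W q (degree_pos_of_irreducible hq').ne'
    refine ⟨⟨z, mem_clF.2 (mem_cl_of_alg ⟨q, hq.ne_zero, hz⟩)⟩, Subtype.ext ?_⟩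
    exact (aeval_algebraMap_apply_eq_algebraMap_eval _ q).symm.trans hz
  rw [show (matroid R W).closure s = clF R s from Set.ext fun _ => mem_clF.symm]
  exact infinite_coe_iff.1 (inferInstanceAs (Infinite (clF R s)))

theorem exists_val_aux {T S : Set W} (hT : (matroid R W).Indep T) (hS : S.Finite)
    (hc : S.encard ≤ T.encard) {u : W} (hu : u ∉ (matroid R W).closure T)
    (h1 : (matroid R W).closure (insert u T) = univ)
    (h2 : (matroid R W).closure (insert u S) = univ)
    (hinf : ((matroid R W).closure ∅).Infinite) (x x' : W) :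
    ∃ V : ValuationSubring W, (∃ w, w ≠ 0 ∧ w ∈ V.nonunits) ∧ (matroid R W).closure T ⊆ V ∧
      (matroid R W).closure S ⊆ V ∧ x ∈ V ∧ x' ∈ V := by
  classical
  have hTf : T.Finite := by
    have := hT.encard_le_eRk_of_subset (subset_univ T)
    rw [← h2, Matroid.eRk_closure_eq] at this
    exact finite_of_encard_le_coe ((this.trans (Matroid.eRk_le_encard _ _)).trans_eq
      (hS.insert u).cast_ncard_eq.symm)
  let E := clF R T
  let _ : Algebra E[X] W := (aeval u : E[X] →ₐ[E] W).toAlgebra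
  have hm : ∀ f, algebraMap E[X] W f = aeval u f := fun _ => rfl
  have htr : Transcendental E u := fun h => hu (mem_cl_of_alg h)
  have halg : Algebra.IsAlgebraic E[X] W := ⟨fun z => by
    refine alg_mono Subtype.val_injective (fun a => ?_) (mem_cl.1 (h1 ▸ mem_univ z))
    obtain ⟨a, ha⟩ := a
    change a ∈ (algebraMap E[X] W).range
    induction ha using Algebra.adjoin_induction with
    | mem x hx =>
      rcases hx with rfl | hx
      · exact ⟨X, aeval_X _⟩
      · exact ⟨C ⟨x, mem_clF.2 ((matroid R W).subset_closure T (subset_univ _) hx)⟩, aeval_C _ _⟩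
    | algebraMap r => exact ⟨C ⟨_, algebraMap_mem_clF T r⟩, aeval_C _ _⟩
    | add x y _ _ hx hy => exact add_mem hx hy
    | mul x y _ _ hx hy => exact mul_mem hx hy⟩
  choose G hG0 hG using fun t : W => mem_cl.1 (h2 ▸ mem_univ t)
  obtain ⟨h, h0, hh⟩ := Algebra.IsAlgebraic.exists_integral_multiples E[X]
    (insert x (insert x' (hS.toFinset ∪ hTf.toFinset.image fun t => ((G t).leadingCoeff : W)⁻¹)))
  obtain ⟨c, hc0, hch⟩ : ∃ c : E, (c : W) ∈ (matroid R W).closure ∅ ∧ h.eval c ≠ 0 := by
    by_contra hcon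
    push Not at hcon
    refine h0 (eq_zero_of_infinite_isRoot h (Infinite.of_image Subtype.val (hinf.mono ?_)))
    intro c hc
    exact ⟨⟨c, mem_clF.2 ((matroid R W).closure_mono (empty_subset _) hc)⟩, hcon _ hc, rfl⟩
  obtain ⟨V, hV, hV'⟩ := Ideal.image_subset_nonunits_valuationSubring
    (A := (algebraMap E[X] W).range)
    (Ideal.span {(algebraMap E[X] W).rangeRestrict (X - C c)}) (by
      rw [Ne, Ideal.span_singleton_eq_top, isUnit_iff_exists_inv]
      rintro ⟨⟨_, f, rfl⟩, hf⟩
      have : aeval u ((X - C c) * f - 1) = 0 := by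
        rw [map_sub, map_mul, map_one, sub_eq_zero]
        exact congrArg Subtype.val hf
      have := congrArg (eval c) (transcendental_iff.1 htr _ this)
      simp at this)
  have hV1 : ∀ f, algebraMap E[X] W f ∈ V := fun f => hV ⟨f, rfl⟩
  have hV2 : u - c ∈ V.nonunits := by
    simpa [hm] using! hV' ⟨_, Ideal.mem_span_singleton_self _, rfl⟩
  have hE : ∀ a : E, (a : W) ∈ V := fun a => by simpa [hm] using! hV1 (C a)
  have hEn : ∀ a : E, (a : W) ∈ V.nonunits → a = 0 := fun a ha =>
    Subtype.ext ((V.mem_nonunits_iff_or.1 ha).resolve_right (not_not.2 (hE a⁻¹)))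
  have hnm : ∀ a ∈ V.nonunits, ∀ b ∈ V, a * b ∈ V.nonunits := fun a ha b hb =>
    (V.coe_mem_nonunits_iff (a := ⟨a, V.nonunits_subset ha⟩ * ⟨b, hb⟩)).2
      (Ideal.mul_mem_right _ _ (V.coe_mem_nonunits_iff.1 ha))
  have hunit : ∀ a z : W, a ∉ V.nonunits → a * z ∈ V → z ∈ V := fun a z ha hz => by
    rw [V.mem_nonunits_iff_or, not_or, not_not] at ha
    simpa [ha.1] using mul_mem ha.2 hz
  have hZ : ∀ z ∈ insert x (insert x' (hS.toFinset ∪ hTf.toFinset.image
      fun t => ((G t).leadingCoeff : W)⁻¹)), z ∈ V := fun z hz => by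
    refine hunit (algebraMap E[X] W h) z (fun hn => hch (hEn _ ?_))
      (Algebra.smul_def h z ▸ mem_of_integral V hV1 (hh z hz))
    obtain ⟨q, hq⟩ := X_sub_C_dvd_sub_C_eval (p := h) (a := c)
    have e : ((h.eval c : E) : W) = algebraMap E[X] W h - (u - c) * algebraMap E[X] W q := by
      simpa [hm, sub_eq_iff_eq_add'] using! (by
        rw [← hq, sub_sub_cancel] : aeval u (C (h.eval c)) = aeval u (h - (X - C c) * q))
    rw [e]
    exact sub_mem hn (hnm _ hV2 _ (hV1 q))
  have hSV : ∀ s ∈ S, s ∈ V := fun s hs => hZ s (by simp [hs])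
  have huV : u ∈ V := by simpa [hm] using hV1 X
  have hRV : ∀ r, algebraMap R W r ∈ V := fun r => hE ⟨_, algebraMap_mem_clF T r⟩
  have hadj : ∀ s : Set W, (∀ z ∈ s, z ∈ V) → ∀ a ∈ Algebra.adjoin R s, a ∈ V := fun s hs a ha =>
    Algebra.adjoin_induction hs hRV (fun _ _ _ _ => add_mem) (fun _ _ _ _ => mul_mem) ha
  let _ : Algebra R V := ((algebraMap R W).codRestrict V hRV).toAlgebra
  let k := IsLocalRing.ResidueField V
  let π : V →ₐ[R] k := IsScalarTower.toAlgHom R V k
  have hπ : ∀ a : V, π a = 0 ↔ (a : W) ∈ V.nonunits := fun a =>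
    (IsLocalRing.residue_eq_zero_iff a).trans V.coe_mem_nonunits_iff.symm
  have : FaithfulSMul R k := (faithfulSMul_iff_algebraMap_injective R k).2
    ((injective_iff_map_eq_zero _).2 fun r hr => FaithfulSMul.algebraMap_injective R W (by
      rw [map_zero]
      exact congrArg Subtype.val
        (hEn ⟨_, algebraMap_mem_clF T r⟩ ((hπ (algebraMap R V r)).1 hr))))
  let ρ : W → k := fun z => if h : z ∈ V then π ⟨z, h⟩ else 0
  have hρ : ∀ z (h : z ∈ V), ρ z = π ⟨z, h⟩ := fun z h => dif_pos h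
  let vι : V →ₐ[R] W := { V.subtype with commutes' := fun _ => rfl }
  have hev : ∀ (s : Set W) (hs : ∀ z ∈ s, z ∈ V) (f : MvPolynomial s R),
      MvPolynomial.aeval (fun z : s => ρ z) f = 0 ↔
        MvPolynomial.aeval (fun z : s => (z : W)) f ∈ V.nonunits := fun s hs f => by
    have e1 : (fun z : s => ρ z) = fun z : s => π ⟨z, hs z z.2⟩ := funext fun z => hρ _ _
    have e2 : (fun z : s => (z : W)) = fun z : s => vι ⟨z, hs z z.2⟩ := rfl
    rw [e1, e2, ← MvPolynomial.comp_aeval_apply, ← MvPolynomial.comp_aeval_apply, hπ]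
    rfl
  have hTE : ∀ t ∈ T, t ∈ E := fun t ht =>
    mem_clF.2 ((matroid R W).subset_closure T (subset_univ _) ht)
  have iT : AlgebraicIndependent R fun t : T => ρ t := algebraicIndependent_iff.2 fun f hf => by
    have hmem : MvPolynomial.aeval (fun z : T => (z : W)) f ∈ Algebra.adjoin R T := by
      rw [Algebra.adjoin_eq_range]
      exact ⟨f, rfl⟩
    exact algebraicIndependent_iff.1 hT f (congrArg Subtype.val (hEn
      ⟨_, isAlgebraic_algebraMap (⟨_, hmem⟩ : Algebra.adjoin R T)⟩
      ((hev T (fun t ht => hE ⟨t, hTE t ht⟩) f).1 hf)))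
  have jT : InjOn ρ T := fun a ha b hb hab =>
    congrArg Subtype.val (iT.injective (a₁ := ⟨a, ha⟩) (a₂ := ⟨b, hb⟩) hab)
  have hmap : ∀ (s : Set W) (hs : ∀ z ∈ s, z ∈ V) (t : W) (ht : t ∈ V)
      (g : (Algebra.adjoin R s)[X]), g ≠ 0 → aeval t g = 0 → (g.leadingCoeff : W)⁻¹ ∈ V →
      ρ t ∈ (matroid R k).closure (ρ '' s) := fun s hs t ht g hg0 hg hl => by
    let i : Algebra.adjoin R s →+* V := (Subalgebra.val _).toRingHom.codRestrict V
      fun a => hadj s hs a a.2
    have hr : ∀ a, π (i a) ∈ Algebra.adjoin R (ρ '' s) := by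
      rintro ⟨a, ha⟩
      induction ha using Algebra.adjoin_induction with
      | mem x hx => exact Algebra.subset_adjoin ⟨x, hx, hρ _ _⟩
      | algebraMap r => exact (π.commutes r).symm ▸ Subalgebra.algebraMap_mem _ r
      | add x y hx' hy' hx hy =>
        exact (map_add (π.toRingHom.comp i) ⟨x, hx'⟩ ⟨y, hy'⟩).symm ▸ add_mem hx hy
      | mul x y hx' hy' hx hy =>
        exact (map_mul (π.toRingHom.comp i) ⟨x, hx'⟩ ⟨y, hy'⟩).symm ▸ mul_mem hx hy
    let η := (π.toRingHom.comp i).codRestrict (Algebra.adjoin R (ρ '' s)) hr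
    refine mem_cl.2 ⟨g.map η, fun h => ?_, ?_⟩
    · have h3 : η g.leadingCoeff = 0 := by
        simpa using congrArg (fun p => p.coeff g.natDegree) h
      rcases V.mem_nonunits_iff_or.1 ((hπ _).1 (congrArg Subtype.val h3)) with h4 | h4
      · exact hg0 (leadingCoeff_eq_zero.1 (Subtype.ext h4))
      · exact h4 hl
    · have h3 : eval₂ i ⟨t, ht⟩ g = 0 := Subtype.ext ((hom_eval₂ g i V.subtype ⟨t, ht⟩).trans hg)
      rw [aeval_def, eval₂_map, hρ t ht]
      exact (hom_eval₂ g i π.toRingHom ⟨t, ht⟩).symm.trans (by rw [h3, map_zero])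
  have hρu : ρ u ∈ (matroid R k).closure (ρ '' S) := by
    have e : ρ u = ρ c := by
      rw [hρ u huV, hρ c (hE c), ← sub_eq_zero, ← map_sub, hπ]
      exact hV2
    obtain ⟨g, hg0, hg⟩ := mem_cl.1 hc0
    rw [e]
    refine (matroid R k).closure_mono (image_mono (empty_subset S))
      (hmap ∅ (by simp) c (hE c) g hg0 hg (hE ⟨_, inv_mem (mem_clF.2
        ((matroid R W).closure_mono (empty_subset T) (mem_cl.2 ?_)))⟩))
    exact isAlgebraic_algebraMap g.leadingCoeff
  have hsub : ρ '' T ⊆ (matroid R k).closure (ρ '' S) := by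
    rintro _ ⟨t, ht, rfl⟩
    rw [← Matroid.closure_insert_eq_of_mem_closure hρu, ← image_insert_eq]
    refine hmap _ ?_ t (hE ⟨t, hTE t ht⟩) (G t) (hG0 t) (hG t) (hZ _ ?_)
    · rintro z (rfl | hz)
      exacts [huV, hSV z hz]
    · simp only [Finset.mem_insert, Finset.mem_union, Finset.mem_image, Finite.mem_toFinset]
      exact Or.inr (Or.inr (Or.inr ⟨t, ht, rfl⟩))
  have k1 : S.encard ≤ (matroid R k).eRk (ρ '' S) := by
    have := (show (matroid R k).Indep (ρ '' T) from
      (algebraicIndependent_image jT).1 iT).encard_le_eRk_of_subset hsub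
    rw [Matroid.eRk_closure_eq, jT.encard_image] at this
    exact hc.trans this
  have k2 := Matroid.eRk_le_encard (matroid R k) (ρ '' S)
  have k3 := encard_image_le ρ S
  have iS : AlgebraicIndependent R fun s : S => ρ s :=
    (algebraicIndependent_image (hS.injOn_of_encard_image_eq (k3.antisymm (k1.trans k2)))).2
      ((Matroid.indep_iff_eRk_eq_encard_of_finite (hS.image ρ)).2 (k2.antisymm (k3.trans k1)))
  refine ⟨V, ⟨u - c, fun h => hu ?_, hV2⟩, fun z hz => hE ⟨z, mem_clF.2 hz⟩, fun z hz => ?_,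
    hZ x (by simp), hZ x' (by simp)⟩
  · rw [sub_eq_zero.1 h]
    exact mem_clF.1 c.2
  · obtain ⟨⟨a, ha⟩, ha0, hi⟩ := (mem_cl.1 hz).exists_integral_multiple
    refine hunit a z (fun hn => ha0 (Subtype.ext ?_))
      (mem_of_integral V (fun b : Algebra.adjoin R S => hadj S hSV b b.2) hi)
    rw [Algebra.adjoin_eq_range] at ha
    obtain ⟨f, rfl⟩ := ha
    obtain rfl := algebraicIndependent_iff.1 iS f ((hev S hSV f).2 hn)
    exact map_zero _

theorem exists_val {E E' : Set W} {x x' : W} [(matroid R W).RankFinite]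
    (hx : x ∉ (matroid R W).closure E) (hx' : x' ∉ (matroid R W).closure E')
    (h1 : (matroid R W).closure (insert x E) = univ)
    (h2 : (matroid R W).closure (insert x' E') = univ)
    (hinf : ((matroid R W).closure ∅).Infinite) :
    ∃ V : ValuationSubring W, (∃ w, w ≠ 0 ∧ w ∈ V.nonunits) ∧ E ⊆ V ∧ E' ⊆ V ∧ x ∈ V ∧ x' ∈ V := by
  obtain ⟨T, hT⟩ := (matroid R W).exists_isBasis E
  obtain ⟨S, hS⟩ := (matroid R W).exists_isBasis E'
  rw [← Matroid.closure_insert_closure_eq_closure_insert, ← hT.closure_eq_closure,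
    Matroid.closure_insert_closure_eq_closure_insert] at h1
  rw [← Matroid.closure_insert_closure_eq_closure_insert, ← hS.closure_eq_closure,
    Matroid.closure_insert_closure_eq_closure_insert] at h2
  have hE := hT.subset_closure
  have hE' := hS.subset_closure
  rw [← hT.closure_eq_closure] at hx
  rw [← hS.closure_eq_closure] at hx'
  have n1 : x ∉ T := fun h => hx ((matroid R W).subset_closure T (subset_univ _) h)
  have n2 : x' ∉ S := fun h => hx' ((matroid R W).subset_closure S (subset_univ _) h)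
  have b1 := ((hT.indep.insert_indep_iff_of_notMem n1).2
    ⟨mem_univ _, hx⟩).isBase_of_ground_subset_closure h1.ge
  have b2 := ((hS.indep.insert_indep_iff_of_notMem n2).2
    ⟨mem_univ _, hx'⟩).isBase_of_ground_subset_closure h2.ge
  have hc := b1.encard_eq_encard_of_isBase b2
  rw [encard_insert_of_notMem n1, encard_insert_of_notMem n2] at hc
  replace hc := WithTop.add_right_cancel ENat.one_ne_top hc
  obtain ⟨u, hu, hu'⟩ : ∃ u, u ∉ (matroid R W).closure T ∧ u ∉ (matroid R W).closure S := by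
    by_cases a : x ∈ (matroid R W).closure S
    · by_cases b : x' ∈ (matroid R W).closure T
      · refine ⟨x + x', fun h => hx ?_, fun h => hx' ?_⟩
        · simpa using mem_clF.1 (sub_mem (mem_clF.2 h) (mem_clF.2 b))
        · simpa using mem_clF.1 (sub_mem (mem_clF.2 h) (mem_clF.2 a))
      · exact ⟨x', b, hx'⟩
    · exact ⟨x, hx, a⟩
  obtain ⟨V, k0, k1, k2, k3⟩ := exists_val_aux hT.indep hS.indep.finite hc.ge hu
    ((Matroid.closure_insert_congr ⟨h1 ▸ mem_univ u, hu⟩).trans h1)
    ((Matroid.closure_insert_congr ⟨h2 ▸ mem_univ u, hu'⟩).trans h2) hinf x x'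
  exact ⟨V, k0, hE.trans k1, hE'.trans k2, k3⟩

end

end Pool.Agent.MP_f1fec5_al.Pol
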