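import Pool.Agent.MP_f1fec5_al.Aff.Loc

/-! Coordinatisation: a lattice model gives a ring homomorphism onto the quotient by a regular
sequence of length two. -/

namespace Pool.Agent.MP_f1fec5_al.Pol

open Ideal Aff Aff.ModelAux

universe u v

/-- A regular sequence of two regular elements. -/
structure RS {R : Type*} [CommRing R] (e₁ e₂ : R) : Prop where
  r1 : e₁ ∈ nonZeroDivisors R
  r2 : e₂ ∈ nonZeroDivisors R
  dv : ∀ r, e₁ ∣ r * e₂ → e₁ ∣ r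

section Ring

variable {R : Type*} [CommRing R] {e₁ e₂ f₁ f₂ : R}

/-- the ideal generated by two elements -/
def II (e₁ e₂ : R) : Ideal R := span {e₁} ⊔ span {e₂}

lemma mem_II {z : R} : z ∈ II e₁ e₂ ↔ ∃ a b, z = a * e₁ + b * e₂ := by
  rw [II, Submodule.mem_sup]
  constructor
  · rintro ⟨x, hx, y, hy, rfl⟩
    obtain ⟨a, rfl⟩ := mem_span_singleton'.1 hx
    obtain ⟨b, rfl⟩ := mem_span_singleton'.1 hy
    exact ⟨a, b, rfl⟩
  · rintro ⟨a, b, rfl⟩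
    exact ⟨_, mem_span_singleton'.2 ⟨a, rfl⟩, _, mem_span_singleton'.2 ⟨b, rfl⟩, rfl⟩

lemma left_mem_II : e₁ ∈ II e₁ e₂ := mem_II.2 ⟨1, 0, by ring⟩

lemma right_mem_II : e₂ ∈ II e₁ e₂ := mem_II.2 ⟨0, 1, by ring⟩

lemma mem_mul_II {q : Ideal R} {z : R} :
    z ∈ q * II e₁ e₂ ↔ ∃ a ∈ q, ∃ b ∈ q, z = a * e₁ + b * e₂ := by
  rw [II, Ideal.mul_sup, Submodule.mem_sup]
  constructor
  · rintro ⟨x, hx, y, hy, rfl⟩
    obtain ⟨a, ha, rfl⟩ := mem_mul_span_singleton.1 hx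
    obtain ⟨b, hb, rfl⟩ := mem_mul_span_singleton.1 hy
    exact ⟨a, ha, b, hb, rfl⟩
  · rintro ⟨a, ha, b, hb, rfl⟩
    exact ⟨_, mem_mul_span_singleton.2 ⟨a, ha, rfl⟩, _, mem_mul_span_singleton.2 ⟨b, hb, rfl⟩, rfl⟩

lemma mem_mul_II_II {q : Ideal R} {z : R} (h : z ∈ q * II e₁ e₂ * II f₁ f₂) :
    ∃ a ∈ q, ∃ b ∈ q, ∃ c ∈ q, ∃ d ∈ q,
      z = a * (e₁ * f₁) + b * (e₂ * f₂) + c * (e₁ * f₂) + d * (e₂ * f₁) := by
  obtain ⟨x, hx, y, hy, rfl⟩ := mem_mul_II.1 h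
  obtain ⟨a, ha, d, hd, rfl⟩ := mem_mul_II.1 hx
  obtain ⟨c, hc, b, hb, rfl⟩ := mem_mul_II.1 hy
  exact ⟨a, ha, b, hb, c, hc, d, hd, by ring⟩

lemma RS.symm (h : RS e₁ e₂) : RS e₂ e₁ := by
  refine ⟨h.r2, h.r1, fun r ⟨s, hs⟩ => ?_⟩
  obtain ⟨t, rfl⟩ := h.dv s ⟨r, by linear_combination -hs⟩
  refine ⟨t, sub_eq_zero.1 ((mem_nonZeroDivisors_iff_right.1 h.r1) _ ?_)⟩
  linear_combination hs

lemma RS.reg (h : RS e₁ e₂) : Reg (II e₁ e₂) := ⟨e₁, left_mem_II, h.r1⟩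

lemma RS.h1 (h : RS e₁ e₂) {a b : R} (hab : a * e₁ + b * e₂ ∈ II e₁ e₂ * II e₁ e₂) :
    a ∈ II e₁ e₂ ∧ b ∈ II e₁ e₂ := by
  obtain ⟨a', ha, b', hb, e⟩ := mem_mul_II.1 hab
  obtain ⟨s, hs⟩ := h.dv (b - b') ⟨a' - a, by linear_combination e⟩
  obtain ⟨t, ht⟩ := h.symm.dv (a - a') ⟨b' - b, by linear_combination e⟩
  constructor
  · have : a = a' + t * e₂ := by linear_combination ht
    rw [this]
    exact add_mem ha (mul_mem_left _ _ right_mem_II)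
  · have : b = b' + s * e₁ := by linear_combination hs
    rw [this]
    exact add_mem hb (mul_mem_left _ _ left_mem_II)

lemma RS.h3 (h : RS e₁ e₂) {a b c : R} (e : a * (e₁ * e₁) + b * (e₂ * e₂) + c * (e₁ * e₂) = 0) :
    a ∈ II e₁ e₂ ∧ b ∈ II e₁ e₂ ∧ c ∈ II e₁ e₂ := by
  obtain ⟨s, rfl⟩ := h.dv b (h.dv _ ⟨-(a * e₁ + c * e₂), by linear_combination e⟩)
  obtain ⟨t, rfl⟩ := h.symm.dv a (h.symm.dv _ ⟨-(e₁ * s * e₂ + c * e₁), by linear_combination e⟩)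
  have h1 : (t * e₁ + s * e₂ + c) * (e₁ * e₂) = 0 := by linear_combination e
  have h2 := (mem_nonZeroDivisors_iff_right.1 (mul_mem h.r1 h.r2)) _ h1
  exact ⟨mem_II.2 ⟨0, t, by ring⟩, mem_II.2 ⟨s, 0, by ring⟩,
    mem_II.2 ⟨-t, -s, by linear_combination h2⟩⟩

/-- Independence of two pairs modulo `q`. -/
def H2 (e₁ e₂ f₁ f₂ : R) (q : Ideal R) : Prop :=
  ∀ a b c d : R, a * (e₁ * f₁) + b * (e₂ * f₂) + c * (e₁ * f₂) + d * (e₂ * f₁) = 0 → a ∈ q ∧ b ∈ q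

lemma RS.h2 (h : RS e₁ e₂) : H2 e₁ e₂ e₁ e₂ (II e₁ e₂) := fun a b c d e =>
  have := h.h3 (a := a) (b := b) (c := c + d) (by linear_combination e)
  ⟨this.1, this.2.1⟩

/-- the graph of multiplication by `r` -/
def GG (e₁ e₂ r : R) : Ideal R := span {e₁ + r * e₂} ⊔ II e₁ e₂ * II e₁ e₂

lemma mem_GG {r z : R} :
    z ∈ GG e₁ e₂ r ↔ ∃ a, z - a * (e₁ + r * e₂) ∈ II e₁ e₂ * II e₁ e₂ := by
  rw [GG, Submodule.mem_sup]
  constructor
  · rintro ⟨x, hx, y, hy, rfl⟩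
    obtain ⟨a, rfl⟩ := mem_span_singleton'.1 hx
    exact ⟨a, by simpa using hy⟩
  · rintro ⟨a, ha⟩
    exact ⟨_, mem_span_singleton'.2 ⟨a, rfl⟩, _, ha, by ring⟩

lemma self_mem_GG (r : R) : e₁ + r * e₂ ∈ GG e₁ e₂ r := mem_GG.2 ⟨1, by simp⟩

lemma GG_le (r : R) : GG e₁ e₂ r ≤ II e₁ e₂ :=
  sup_le ((span_singleton_le_iff_mem _).2 (mem_II.2 ⟨1, r, by ring⟩)) mul_le_left

lemma RS.regG (h : RS e₁ e₂) (r : R) : Reg (GG e₁ e₂ r) := (h.reg.mul h.reg).mono le_sup_right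

lemma RS.a1 (h : RS e₁ e₂) :
    span {e₁} ⊓ (span {e₂} ⊔ II e₁ e₂ * II e₁ e₂) ≤ II e₁ e₂ * II e₁ e₂ := by
  rintro z ⟨h1, h2⟩
  obtain ⟨a, rfl⟩ := mem_span_singleton'.1 h1
  obtain ⟨x, hx, y, hy, e⟩ := Submodule.mem_sup.1 h2
  obtain ⟨b, rfl⟩ := mem_span_singleton'.1 hx
  have := h.h1 (a := a) (b := -b) (by convert hy using 1; linear_combination -e)
  exact mul_mem_mul this.1 left_mem_II

lemma RS.a2 (h : RS e₁ e₂) (r : R) : GG e₁ e₂ r ⊓ span {e₂} ≤ II e₁ e₂ * II e₁ e₂ := by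
  rintro z ⟨h1, h2⟩
  obtain ⟨b, rfl⟩ := mem_span_singleton'.1 h2
  obtain ⟨a, ha⟩ := mem_GG.1 h1
  have := h.h1 (a := -a) (b := b - a * r) (by convert ha using 1; ring)
  have hb : b ∈ II e₁ e₂ := by
    simpa using sub_mem this.2 (mul_mem_right r _ this.1)
  exact mul_mem_mul hb right_mem_II

lemma RS.a3 (h : RS e₁ e₂) (r : R) :
    GG e₁ e₂ r * span {e₁} ⊓ span {e₁} * span {e₂} ≤ II e₁ e₂ * (span {e₁} * span {e₂}) := by
  rintro z ⟨h1, h2⟩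
  rw [span_singleton_mul_span_singleton] at h2 ⊢
  obtain ⟨s, rfl⟩ := mem_span_singleton'.1 h2
  obtain ⟨g, hg, e⟩ := mem_mul_span_singleton.1 h1
  have e' : g = s * e₂ := sub_eq_zero.1 ((mem_nonZeroDivisors_iff_right.1 h.r1) _
    (by linear_combination e))
  have := h.h1 (a := 0) (b := s) (by
    simpa using h.a2 r ⟨e' ▸ hg, mem_span_singleton'.2 ⟨s, rfl⟩⟩)
  exact mul_mem_mul this.2 (mem_span_singleton_self _)

lemma a4 (r : R) : span {e₁} ≤ GG e₁ e₂ r ⊔ span {e₂} := by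
  rw [span_singleton_le_iff_mem]
  exact Submodule.mem_sup.2 ⟨_, self_mem_GG r, _, mem_span_singleton'.2 ⟨-r, rfl⟩, by ring⟩

lemma a5 : span {e₂} ≤ GG e₁ e₂ 1 ⊔ span {e₁} := by
  rw [span_singleton_le_iff_mem]
  exact Submodule.mem_sup.2 ⟨_, self_mem_GG 1, _, mem_span_singleton'.2 ⟨-1, rfl⟩, by ring⟩

lemma eq_GG {Y : Ideal R} (h0 : II e₁ e₂ * II e₁ e₂ ≤ Y)
    (h1 : Y ≤ II e₁ e₂) (h2 : span {e₁} ≤ Y ⊔ span {e₂})
    (h3 : Y ⊓ span {e₂} ≤ II e₁ e₂ * II e₁ e₂) : ∃ r, Y = GG e₁ e₂ r := by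
  obtain ⟨y, hy, z, hz, e⟩ := Submodule.mem_sup.1 (h2 (mem_span_singleton_self _))
  obtain ⟨s, rfl⟩ := mem_span_singleton'.1 hz
  have e' : e₁ + -s * e₂ = y := by linear_combination -e
  refine ⟨-s, le_antisymm (fun w hw => ?_) (sup_le ?_ h0)⟩
  · obtain ⟨a, b, rfl⟩ := mem_II.1 (h1 hw)
    refine mem_GG.2 ⟨a, h3 ⟨sub_mem hw (mul_mem_left _ _ (e' ▸ hy)), ?_⟩⟩
    exact mem_span_singleton'.2 ⟨b + a * s, by ring⟩
  · rw [span_singleton_le_iff_mem, e']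
    exact hy

end Ring

section Model

variable {R : Type u} {D : Type v} [CommRing R] [CommRing D] (m : Model R D) {e₁ e₂ f₁ f₂ : R}

/-- the graph of multiplication by `d` in the model -/
def XX (e₁ e₂ : R) (d : D) : Ideal D :=
  Gam (m.F (II e₁ e₂) * m.F (II e₁ e₂)) (m.F (span {e₁})) (m.F (span {e₂})) (m.F (GG e₁ e₂ 1)) d

/-- `d` and `r` have corresponding graphs -/
def Rel (e₁ e₂ : R) (d : D) (r : R) : Prop := m.F (GG e₁ e₂ r) = XX m e₁ e₂ d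

variable (h : RS e₁ e₂)
include h

lemma FI : m.F (II e₁ e₂) = m.F (span {e₁}) ⊔ m.F (span {e₂}) :=
  m.map_sup (reg_span h.r1) (reg_span h.r2)

lemma N_le (r : R) : m.F (II e₁ e₂) * m.F (II e₁ e₂) ≤ m.F (GG e₁ e₂ r) := by
  rw [← m.map_mul h.reg h.reg]
  exact m.mono (h.reg.mul h.reg) le_sup_right

lemma b1 {x : D} (hx : x ∈ m.F (span {e₁}))
    (hx' : x ∈ m.F (span {e₂}) ⊔ m.F (II e₁ e₂) * m.F (II e₁ e₂)) :
    x ∈ m.F (II e₁ e₂) * m.F (II e₁ e₂) := by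
  have r0 := h.reg.mul h.reg
  rw [← m.map_mul h.reg h.reg] at hx' ⊢
  rw [← m.map_sup (reg_span h.r2) r0] at hx'
  have r1 : Reg (span {e₂} ⊔ II e₁ e₂ * II e₁ e₂) := r0.mono le_sup_right
  refine m.mono ((reg_span h.r1).inf r1) h.a1 ?_
  rw [m.map_inf (reg_span h.r1) r1]
  exact ⟨hx, hx'⟩

lemma b2 (r : R) {y : D} (hy : y ∈ m.F (GG e₁ e₂ r)) (hy' : y ∈ m.F (span {e₂})) :
    y ∈ m.F (II e₁ e₂) * m.F (II e₁ e₂) := by
  rw [← m.map_mul h.reg h.reg]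
  refine m.mono ((h.regG r).inf (reg_span h.r2)) (h.a2 r) ?_
  rw [m.map_inf (h.regG r) (reg_span h.r2)]
  exact ⟨hy, hy'⟩

lemma b3 (r : R) {x y x' y' : D} (hx : x ∈ m.F (span {e₁})) (hy : y ∈ m.F (span {e₂}))
    (hc : x + y ∈ m.F (GG e₁ e₂ r)) (hx' : x' ∈ m.F (span {e₁})) (hy' : y' ∈ m.F (span {e₂}))
    (hc' : x' + y' ∈ m.F (GG e₁ e₂ r)) :
    y * x' - x * y' ∈ m.F (II e₁ e₂) * (m.F (span {e₁}) * m.F (span {e₂})) := by
  have r1 := (h.regG r).mul (reg_span h.r1)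
  have r2 := (reg_span h.r1).mul (reg_span h.r2)
  rw [← m.map_mul (reg_span h.r1) (reg_span h.r2), ← m.map_mul h.reg r2]
  refine m.mono (r1.inf r2) (h.a3 r) ?_
  rw [m.map_inf r1 r2, m.map_mul (h.regG r) (reg_span h.r1),
    m.map_mul (reg_span h.r1) (reg_span h.r2)]
  refine ⟨?_, sub_mem (mul_comm x' y ▸ mul_mem_mul hx' hy) (mul_mem_mul hx hy')⟩
  have : y * x' - x * y' = (x + y) * x' - (x' + y') * x := by ring
  rw [SetLike.mem_coe, this]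
  exact sub_mem (mul_mem_mul hc hx') (mul_mem_mul hc' hx)

lemma b4 (r : R) {x : D} (hx : x ∈ m.F (span {e₁})) :
    ∃ y ∈ m.F (span {e₂}), x + y ∈ m.F (GG e₁ e₂ r) := by
  have := m.mono (reg_span h.r1) (a4 (e₂ := e₂) r) hx
  rw [m.map_sup (h.regG r) (reg_span h.r2)] at this
  obtain ⟨c, hc, y, hy, rfl⟩ := Submodule.mem_sup.1 this
  exact ⟨-y, neg_mem hy, by simpa using hc⟩

lemma b5 {y : D} (hy : y ∈ m.F (span {e₂})) :
    ∃ x ∈ m.F (span {e₁}), x + y ∈ m.F (GG e₁ e₂ 1) := by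
  have := m.mono (reg_span h.r2) (a5 (e₁ := e₁)) hy
  rw [m.map_sup (h.regG 1) (reg_span h.r1)] at this
  obtain ⟨c, hc, x, hx, rfl⟩ := Submodule.mem_sup.1 this
  exact ⟨-x, neg_mem hx, by simpa using hc⟩

lemma E1_le : m.F (span {e₁}) ≤ m.F (II e₁ e₂) := m.mono (reg_span h.r1) le_sup_left

lemma E2_le : m.F (span {e₂}) ≤ m.F (II e₁ e₂) := m.mono (reg_span h.r2) le_sup_right

lemma XX_le (d : D) : XX m e₁ e₂ d ≤ m.F (II e₁ e₂) := by
  rintro z ⟨x, hx, y, hy, -, hz⟩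
  simpa using add_mem (mul_le_left hz)
    (add_mem (E1_le m h hx) (mul_mem_left _ d (E2_le m h hy)))

lemma exists_rel (d : D) : ∃ r, Rel m e₁ e₂ d r := by
  have r0 := h.reg.mul h.reg
  have h0 : m.F (II e₁ e₂ * II e₁ e₂) ≤ XX m e₁ e₂ d := by
    rw [m.map_mul h.reg h.reg]
    exact le_Gam _ _ _ _ d
  obtain ⟨Y, hY, e⟩ := m.surj (XX m e₁ e₂ d) fun h' => m.ne_bot r0 (eq_bot_iff.2 (h' ▸ h0))
  obtain ⟨r, rfl⟩ := eq_GG (e₁ := e₁) (e₂ := e₂) (Y := Y) ((m.le_iff r0 hY).1 (e ▸ h0))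
    ((m.le_iff hY h.reg).1 (e ▸ XX_le m h d)) (by
      rw [← m.le_iff (reg_span h.r1) (hY.mono le_sup_left), m.map_sup hY (reg_span h.r2), e]
      intro x hx
      obtain ⟨y, hy, hc⟩ := b4 m h 1 hx
      exact Submodule.mem_sup.2 ⟨x + d * y, ⟨x, hx, y, hy, hc, by simp⟩, -(d * y),
        neg_mem (mul_mem_left _ _ hy), by ring⟩) (by
      rw [← m.le_iff (hY.inf (reg_span h.r2)) r0, m.map_inf hY (reg_span h.r2), e,
        m.map_mul h.reg h.reg]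
      rintro z ⟨⟨x, hx, y, hy, hc, hz⟩, hz'⟩
      have h1 := b1 m h hx (Submodule.mem_sup.2 ⟨z - d * y, sub_mem hz' (mul_mem_left _ _ hy),
        _, neg_mem hz, by ring⟩)
      have h2 := b2 m h 1 (y := y) (by simpa using sub_mem hc (N_le m h 1 h1)) hy
      simpa using add_mem hz (add_mem h1 (mul_mem_left _ d h2)))
  exact ⟨r, e⟩

lemma rel_one : Rel m e₁ e₂ 1 1 := by
  refine le_antisymm (fun z hz => ?_) ?_
  · have := m.mono (h.regG 1) (GG_le 1) hz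
    rw [FI m h] at this
    obtain ⟨x, hx, y, hy, rfl⟩ := Submodule.mem_sup.1 this
    exact ⟨x, hx, y, hy, hz, by simp⟩
  · rintro z ⟨x, hx, y, hy, hc, hz⟩
    simpa using add_mem (N_le m h 1 hz) hc

lemma rel_add {d d' : D} {r r' r'' : R} (h1 : Rel m e₁ e₂ d r) (h2 : Rel m e₁ e₂ d' r')
    (h3 : Rel m e₁ e₂ (d + d') r'') : r'' - (r + r') ∈ II e₁ e₂ := by
  have r3 := (h.reg.mul h.reg).mul h.reg
  have ra := (reg_span h.r1).mul (h.regG r'')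
  have rb := (reg_span h.r2).mul (reg_span h.r2)
  have key : GG e₁ e₂ r * GG e₁ e₂ r' ≤ span {e₁} * GG e₁ e₂ r'' ⊔ span {e₂} * span {e₂} ⊔
      II e₁ e₂ * II e₁ e₂ * II e₁ e₂ := by
    rw [← m.le_iff ((h.regG r).mul (h.regG r')) (r3.mono le_sup_right),
      m.map_sup (ra.mono le_sup_left) r3, m.map_sup ra rb, m.map_mul (h.regG r) (h.regG r'),
      m.map_mul (reg_span h.r1) (h.regG r''), m.map_mul (reg_span h.r2) (reg_span h.r2),
      m.map_mul (h.reg.mul h.reg) h.reg, m.map_mul h.reg h.reg, h1, h2, h3, Ideal.mul_le]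
    rintro z ⟨x, hx, y, hy, hc, hz⟩ z' hz0
    obtain ⟨x', hx', y', hy', hc', hz'⟩ := id hz0
    have e : z * z' = x * (x' + (d + d') * y') + (d * d') * (y * y') + (d * (y * x' - x * y') +
      ((z - (x + d * y)) * z' + (z' - (x' + d' * y')) * (x + d * y))) := by ring
    rw [e]
    refine add_mem (mem_sup_left (add_mem (mem_sup_left (mul_mem_mul hx
      ⟨x', hx', y', hy', hc', by simp⟩)) (mem_sup_right (mul_mem_left _ _ (mul_mem_mul hy hy')))))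
      (mem_sup_right (add_mem (mul_mem_left _ _ ?_) (add_mem (mul_mem_mul hz (XX_le m h d' hz0))
        (mul_mem_mul hz' (add_mem (E1_le m h hx) (mul_mem_left _ d (E2_le m h hy)))))))
    rw [mul_assoc]
    exact mul_mono_right (mul_mono (E1_le m h) (E2_le m h)) (b3 m h 1 hx hy hc hx' hy' hc')
  obtain ⟨w, hw, n, hn, e⟩ := Submodule.mem_sup.1
    (key (mul_mem_mul (self_mem_GG r) (self_mem_GG r')))
  obtain ⟨w1, hw1, w2, hw2, rfl⟩ := Submodule.mem_sup.1 hw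
  obtain ⟨g, hg, rfl⟩ := mem_span_singleton_mul.1 hw1
  obtain ⟨a, ha⟩ := mem_GG.1 hg
  rw [span_singleton_mul_span_singleton] at hw2
  obtain ⟨b, rfl⟩ := mem_span_singleton'.1 hw2
  obtain ⟨a1, ha1, a2, ha2, a3, ha3, a4, ha4, e'⟩ :=
    mem_mul_II_II (add_mem hn (mul_mem_mul ha left_mem_II))
  obtain ⟨k1, -, k3⟩ := h.h3 (a := 1 - a - a1) (b := r * r' - b - a2)
    (c := r + r' - a * r'' - (a3 + a4)) (by linear_combination e' - e)
  have e2 : r'' - (r + r') = r'' * ((1 - a - a1) + a1) -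
    ((r + r' - a * r'' - (a3 + a4)) + (a3 + a4)) := by ring
  rw [e2]
  exact sub_mem (mul_mem_left _ _ (add_mem k1 ha1)) (add_mem k3 (add_mem ha3 ha4))

lemma rel_mul (h' : RS f₁ f₂) {q : Ideal R} (hq : II e₁ e₂ ≤ q) (hq' : II f₁ f₂ ≤ q)
    (H : H2 e₁ e₂ f₁ f₂ q) {d d' : D} {r r' r'' : R} (h1 : Rel m e₁ e₂ d r)
    (h2 : Rel m f₁ f₂ d' r') (h3 : Rel m e₁ e₂ (d * d') r'') : r'' - r * r' ∈ q := by
  have rq := h.reg.mono hq
  have r3 := (rq.mul h.reg).mul h'.reg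
  have ra := (h.regG r'').mul (h'.regG 1)
  have rb := (reg_span h.r1).mul (reg_span h'.r2)
  have rc := (reg_span h.r2).mul (reg_span h'.r1)
  have key : GG e₁ e₂ r * GG f₁ f₂ r' ≤ GG e₁ e₂ r'' * GG f₁ f₂ 1 ⊔ (span {e₁} * span {f₂} ⊔
      span {e₂} * span {f₁}) ⊔ q * II e₁ e₂ * II f₁ f₂ := by
    rw [← m.le_iff ((h.regG r).mul (h'.regG r')) (r3.mono le_sup_right),
      m.map_sup (ra.mono le_sup_left) r3, m.map_sup ra (rb.mono le_sup_left), m.map_sup rb rc,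
      m.map_mul (h.regG r) (h'.regG r'), m.map_mul (h.regG r'') (h'.regG 1),
      m.map_mul (reg_span h.r1) (reg_span h'.r2), m.map_mul (reg_span h.r2) (reg_span h'.r1),
      m.map_mul (rq.mul h.reg) h'.reg, m.map_mul rq h.reg, h1, h2, h3, Ideal.mul_le]
    rintro z ⟨x, hx, y, hy, hc, hz⟩ z' hz0
    obtain ⟨x', hx', y', hy', hc', hz'⟩ := id hz0
    have e : z * z' = (x + (d * d') * y) * (x' + y') + ((d' - 1) * (x * y') +
      (d - d * d') * (y * x')) +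
      ((z - (x + d * y)) * z' + (x + d * y) * (z' - (x' + d' * y'))) := by ring
    rw [e]
    refine add_mem (mem_sup_left (add_mem (mem_sup_left (mul_mem_mul
      ⟨x, hx, y, hy, hc, by simp⟩ hc')) (mem_sup_right (add_mem
        (mem_sup_left (mul_mem_left _ _ (mul_mem_mul hx hy')))
        (mem_sup_right (mul_mem_left _ _ (mul_mem_mul hy hx')))))))
      (mem_sup_right (add_mem (mul_mem_mul (mul_mono_left (m.mono h.reg hq) hz)
        (XX_le m h' d' hz0)) ?_))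
    rw [mul_comm (m.F q), mul_assoc]
    exact mul_mem_mul (add_mem (E1_le m h hx) (mul_mem_left _ d (E2_le m h hy)))
      (mul_mono_left (m.mono h'.reg hq') hz')
  obtain ⟨w, hw, n, hn, e⟩ := Submodule.mem_sup.1
    (key (mul_mem_mul (self_mem_GG r) (self_mem_GG r')))
  obtain ⟨w1, hw1, w2, hw2, rfl⟩ := Submodule.mem_sup.1 hw
  obtain ⟨w3, hw3, w4, hw4, rfl⟩ := Submodule.mem_sup.1 hw2
  rw [span_singleton_mul_span_singleton] at hw3 hw4
  obtain ⟨b, rfl⟩ := mem_span_singleton'.1 hw3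
  obtain ⟨c, rfl⟩ := mem_span_singleton'.1 hw4
  have hle : GG e₁ e₂ r'' * GG f₁ f₂ 1 ≤ span {(e₁ + r'' * e₂) * (f₁ + 1 * f₂)} ⊔
      q * II e₁ e₂ * II f₁ f₂ := by
    rw [Ideal.mul_le]
    intro g hg g' hg'
    obtain ⟨a, ha⟩ := mem_GG.1 hg
    obtain ⟨a', ha'⟩ := mem_GG.1 hg'
    refine Submodule.mem_sup.2 ⟨_, mem_span_singleton'.2 ⟨a * a', rfl⟩,
      (g - a * (e₁ + r'' * e₂)) * g' + a * (e₁ + r'' * e₂) * (g' - a' * (f₁ + 1 * f₂)),
      add_mem (mul_mem_mul (mul_mono_left hq ha) (GG_le 1 hg')) ?_, by ring⟩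
    rw [mul_comm q, mul_assoc (II e₁ e₂)]
    exact mul_mem_mul (mul_mem_left _ _ (GG_le r'' (self_mem_GG r''))) (mul_mono_left hq' ha')
  obtain ⟨w5, hw5, n', hn', rfl⟩ := Submodule.mem_sup.1 (hle hw1)
  obtain ⟨a, rfl⟩ := mem_span_singleton'.1 hw5
  obtain ⟨a1, ha1, a2, ha2, a3, -, a4, -, e'⟩ := mem_mul_II_II (add_mem hn hn')
  obtain ⟨k1, k2⟩ := H (1 - a - a1) (r * r' - a * r'' - a2) (r' - a - b - a3)
    (r - a * r'' - c - a4) (by linear_combination e' - e)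
  have e2 : r'' - r * r' = r'' * ((1 - a - a1) + a1) - ((r * r' - a * r'' - a2) + a2) := by ring
  rw [e2]
  exact sub_mem (mul_mem_left _ _ (add_mem k1 ha1)) (add_mem k2 ha2)

lemma exists_t {E : Ideal D} (r : R) {w : D} (hw : w ∈ m.F (span {e₁}) * E) :
    ∃ t ∈ E * m.F (span {e₂}), ∀ x ∈ m.F (span {e₁}), ∀ y ∈ m.F (span {e₂}),
      x + y ∈ m.F (GG e₁ e₂ r) →
        w * y - x * t ∈ m.F (span {e₁}) * E * (m.F (II e₁ e₂) * m.F (span {e₂})) := by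
  refine Submodule.mul_induction_on hw (fun x' hx' s hs => ?_) ?_
  · obtain ⟨y', hy', hc'⟩ := b4 m h r hx'
    refine ⟨s * y', mul_mem_mul hs hy', fun x hx y hy hc => ?_⟩
    have e : x' * s * y - x * (s * y') = s * (y * x' - x * y') := by ring
    have e2 : m.F (span {e₁}) * E * (m.F (II e₁ e₂) * m.F (span {e₂})) =
      E * (m.F (II e₁ e₂) * (m.F (span {e₁}) * m.F (span {e₂}))) := by ring
    rw [e, e2]
    exact mul_mem_mul hs (b3 m h r hx hy hc hx' hy' hc')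
  · rintro w w' ⟨t, ht, h1⟩ ⟨t', ht', h2⟩
    refine ⟨t + t', add_mem ht ht', fun x hx y hy hc => ?_⟩
    convert add_mem (h1 x hx y hy hc) (h2 x hx y hy hc) using 1
    ring

omit h in
lemma cancel_mem [IsDomain D] {J : Ideal D} {w z : D} (hw : w ≠ 0) (hz : w * z ∈ span {w} * J) : z ∈ J := by
  obtain ⟨y, hy, e⟩ := mem_span_singleton_mul.1 hz
  rwa [← mul_left_cancel₀ hw e]

lemma exists_rel' [IsDomain D] (r : R) : ∃ d, Rel m e₁ e₂ d r := by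
  obtain ⟨E, w, hw, hE⟩ := map_span_inv m h.r1
  have hw' : w ∈ m.F (span {e₁}) * E := hE ▸ mem_span_singleton_self w
  obtain ⟨t, ht, h1⟩ := exists_t m h 1 hw'
  obtain ⟨t', ht', h2⟩ := exists_t m h r hw'
  rw [hE] at h1 h2
  have h3 : E * m.F (span {e₂}) ≤ span {t} ⊔ E * (m.F (II e₁ e₂) * m.F (span {e₂})) := by
    rw [Ideal.mul_le]
    intro s hs y hy
    obtain ⟨x, hx, hc⟩ := b5 m h hy
    obtain ⟨n, hn, e⟩ := mem_span_singleton_mul.1 (h1 x hx y hy hc)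
    obtain ⟨c, hc⟩ := mem_span_singleton'.1 (hE ▸ mul_mem_mul hx hs)
    refine Submodule.mem_sup.2 ⟨_, mem_span_singleton'.2 ⟨c, rfl⟩, _, mul_mem_mul hs hn,
      mul_left_cancel₀ hw ?_⟩
    linear_combination s * e + t * hc
  obtain ⟨z, hz, n, hn, e⟩ := Submodule.mem_sup.1 (h3 ht')
  obtain ⟨d, rfl⟩ := mem_span_singleton'.1 hz
  have key : ∀ x ∈ m.F (span {e₁}), ∀ y ∈ m.F (span {e₂}), ∀ y' ∈ m.F (span {e₂}),
      x + y ∈ m.F (GG e₁ e₂ 1) → x + y' ∈ m.F (GG e₁ e₂ r) →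
        y' - d * y ∈ m.F (II e₁ e₂) * m.F (II e₁ e₂) := by
    intro x hx y hy y' hy' hc hc'
    refine mul_mono_right (E2_le m h) (cancel_mem hw ?_)
    have e2 : w * (y' - d * y) = (w * y' - x * t') - d * (w * y - x * t) + x * n := by
      linear_combination -x * e
    rw [e2]
    refine add_mem (sub_mem (h2 x hx y' hy' hc') (mul_mem_left _ _ (h1 x hx y hy hc))) ?_
    rw [← hE, mul_assoc]
    exact mul_mem_mul hx hn
  refine ⟨d, le_antisymm (fun z hz => ?_) ?_⟩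
  · have := m.mono (h.regG r) (GG_le r) hz
    rw [FI m h] at this
    obtain ⟨x, hx, y', hy', rfl⟩ := Submodule.mem_sup.1 this
    obtain ⟨y, hy, hc⟩ := b4 m h 1 hx
    exact ⟨x, hx, y, hy, hc, by simpa using key x hx y hy y' hy' hc hz⟩
  · rintro z ⟨x, hx, y, hy, hc, hz⟩
    obtain ⟨y', hy', hc'⟩ := b4 m h r hx
    convert add_mem (N_le m h r (sub_mem hz (key x hx y hy y' hy' hc hc'))) hc' using 1
    ring

lemma rel_mem [IsDomain D] {d : D} {r : R} (h1 : Rel m e₁ e₂ d r) {J : Ideal R} (hJ : II e₁ e₂ ≤ J) :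
    d ∈ m.F J ↔ r ∈ J := by
  have rJ := h.reg.mono hJ
  have ra : Reg (GG e₁ e₂ r ⊔ span {e₁}) := (h.regG r).mono le_sup_left
  have rb := rJ.mul (reg_span h.r2)
  have key : (GG e₁ e₂ r ⊔ span {e₁}) ⊓ span {e₂} ≤ J * span {e₂} ↔
      (XX m e₁ e₂ d ⊔ m.F (span {e₁})) ⊓ m.F (span {e₂}) ≤ m.F J * m.F (span {e₂}) := by
    rw [← m.le_iff (ra.inf (reg_span h.r2)) rb, m.map_inf ra (reg_span h.r2),
      m.map_sup (h.regG r) (reg_span h.r1), m.map_mul rJ (reg_span h.r2), h1]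
  constructor
  · intro hd
    have h2 := key.2 (by
      rintro z ⟨hz, hz'⟩
      obtain ⟨g, ⟨x, hx, y, hy, -, hg⟩, x', hx', rfl⟩ := Submodule.mem_sup.1 hz
      have h3 := b1 m h (add_mem hx hx') (Submodule.mem_sup.2 ⟨g + x' - d * y,
        sub_mem hz' (mul_mem_left _ _ hy), _, neg_mem hg, by ring⟩)
      have h4 : g + x' - d * y ∈ m.F (II e₁ e₂ * II e₁ e₂ ⊓ span {e₂}) := by
        rw [m.map_inf (h.reg.mul h.reg) (reg_span h.r2), m.map_mul h.reg h.reg]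
        refine ⟨?_, sub_mem hz' (mul_mem_left _ _ hy)⟩
        have e : g + x' - d * y = g - (x + d * y) + (x + x') := by ring
        rw [SetLike.mem_coe, e]
        exact add_mem hg h3
      have h5 : II e₁ e₂ * II e₁ e₂ ⊓ span {e₂} ≤ J * span {e₂} := by
        rintro w ⟨hw, hw'⟩
        obtain ⟨b, rfl⟩ := mem_span_singleton'.1 hw'
        exact mul_mem_mul (hJ (h.h1 (a := 0) (b := b) (by simpa using hw)).2)
          (mem_span_singleton_self _)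
      have h6 := m.mono ((h.reg.mul h.reg).inf (reg_span h.r2)) h5 h4
      rw [m.map_mul rJ (reg_span h.r2)] at h6
      simpa using add_mem h6 (mul_mem_mul hd hy))
    obtain ⟨j, hj, e⟩ := mem_mul_span_singleton.1 (h2 (x := r * e₂)
      ⟨Submodule.mem_sup.2 ⟨_, self_mem_GG r, _, mem_span_singleton'.2 ⟨-1, rfl⟩, by ring⟩,
        mem_span_singleton'.2 ⟨r, rfl⟩⟩)
    have : j = r := sub_eq_zero.1 ((mem_nonZeroDivisors_iff_right.1 h.r2) _
      (by linear_combination e))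
    exact this ▸ hj
  · intro hr
    have h2 := key.1 (by
      rintro z ⟨hz, hz'⟩
      obtain ⟨g, hg, x, hx, e⟩ := Submodule.mem_sup.1 hz
      obtain ⟨a, ha⟩ := mem_GG.1 hg
      obtain ⟨c, rfl⟩ := mem_span_singleton'.1 hx
      obtain ⟨b, rfl⟩ := mem_span_singleton'.1 hz'
      have := (h.h1 (a := -c - a) (b := b - a * r) (by
        convert ha using 1; linear_combination -e)).2
      exact mul_mem_mul (by simpa using add_mem (hJ this) (mul_mem_left _ a hr))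
        (mem_span_singleton_self _))
    obtain ⟨E, w, hw, hE⟩ := map_span_inv m h.r2
    refine cancel_mem hw ?_
    rw [← hE, mul_comm w d, mul_comm _ (m.F J), ← mul_assoc]
    refine mul_mono_left (I := span {d} * m.F (span {e₂})) ?_ ?_
    · rw [span_singleton_mul_le_iff]
      intro y hy
      obtain ⟨x, hx, hc⟩ := b5 m h hy
      exact h2 ⟨Submodule.mem_sup.2 ⟨x + d * y, ⟨x, hx, y, hy, hc, by simp⟩, -x, neg_mem hx,
        by ring⟩, mul_mem_left _ _ hy⟩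
    · rw [mul_assoc, hE]
      exact mul_mem_mul (mem_span_singleton_self d) (mem_span_singleton_self w)

/-- a coordinate of `d` -/
noncomputable def rr (d : D) : R := (exists_rel m h d).choose

lemma rr_spec (d : D) : Rel m e₁ e₂ d (rr m h d) := (exists_rel m h d).choose_spec

omit h in
lemma II_le_ker {S : Type*} [CommRing S] {χ : R →+* S} (h1 : χ e₁ = 0) (h2 : χ e₂ = 0) :
    II e₁ e₂ ≤ RingHom.ker χ :=
  sup_le ((span_singleton_le_iff_mem _).2 h1) ((span_singleton_le_iff_mem _).2 h2)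

lemma rel_compat (h' : RS f₁ f₂) {q : Ideal R} (hq : II e₁ e₂ ≤ q) (hq' : II f₁ f₂ ≤ q)
    (H : H2 e₁ e₂ f₁ f₂ q) {d : D} {r r' : R} (h1 : Rel m e₁ e₂ d r) (h2 : Rel m f₁ f₂ d r') :
    r - r' ∈ q := by
  simpa using rel_mul m h h' hq hq' H (rel_one m h) h2 (r'' := r) (by rwa [one_mul])

/-- The coordinate homomorphism. -/
noncomputable def sig {S : Type*} [CommRing S] (χ : R →+* S) (h1 : χ e₁ = 0) (h2 : χ e₂ = 0) :
    D →+* S :=
  RingHom.mk' ⟨⟨fun d => χ (rr m h d), by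
      have := II_le_ker h1 h2 (rel_compat m h h le_rfl le_rfl h.h2 (rr_spec m h 1) (rel_one m h))
      simpa [RingHom.mem_ker, sub_eq_zero] using this⟩, fun d d' => by
      have := II_le_ker h1 h2 (rel_mul m h h le_rfl le_rfl h.h2 (rr_spec m h d) (rr_spec m h d')
        (rr_spec m h (d * d')))
      simpa [RingHom.mem_ker, sub_eq_zero] using this⟩ fun d d' => by
    have := II_le_ker h1 h2 (rel_add m h (rr_spec m h d) (rr_spec m h d') (rr_spec m h (d + d')))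
    simpa [RingHom.mem_ker, sub_eq_zero] using this

variable {S : Type*} [CommRing S] {χ : R →+* S} (h1 : χ e₁ = 0) (h2 : χ e₂ = 0)

lemma sig_apply (d : D) : sig m h χ h1 h2 d = χ (rr m h d) := rfl

lemma sig_surj [IsDomain D] (r : R) : ∃ d, sig m h χ h1 h2 d = χ r := by
  obtain ⟨d, hd⟩ := exists_rel' m h r
  have := II_le_ker h1 h2 (rel_compat m h h le_rfl le_rfl h.h2 (rr_spec m h d) hd)
  exact ⟨d, by simpa [RingHom.mem_ker, sub_eq_zero, sig_apply] using this⟩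

lemma sig_map [IsDomain D] {d : D} (hd : d ≠ 0) : (Iof m d).map χ = span {sig m h χ h1 h2 d} := by
  have hb : (II e₁ e₂).map χ = ⊥ := (map_eq_bot_iff_le_ker χ).2 (II_le_ker h1 h2)
  have k1 : rr m h d ∈ Iof m d ⊔ II e₁ e₂ := (rel_mem m h (rr_spec m h d) le_sup_right).1
    ((mem_iff m hd (h.reg.mono le_sup_right)).2 le_sup_left)
  have k2 : Iof m d ≤ span {rr m h d} ⊔ II e₁ e₂ := (mem_iff m hd (h.reg.mono le_sup_right)).1
    ((rel_mem m h (rr_spec m h d) le_sup_right).2 (mem_sup_left (mem_span_singleton_self _)))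
  refine le_antisymm ((map_mono k2).trans ?_) ?_
  · rw [Ideal.map_sup, hb, sup_bot_eq, map_span, Set.image_singleton, sig_apply]
  · rw [span_singleton_le_iff_mem, sig_apply]
    simpa [Ideal.map_sup, hb] using mem_map_of_mem χ k1

lemma rr_compat (h' : RS f₁ f₂) {q : Ideal R} (hq : II e₁ e₂ ≤ q) (hq' : II f₁ f₂ ≤ q)
    (H : H2 e₁ e₂ f₁ f₂ q) (d : D) : rr m h d - rr m h' d ∈ q :=
  rel_compat m h h' hq hq' H (rr_spec m h d) (rr_spec m h' d)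

end Model

end Pool.Agent.MP_f1fec5_al.Pol
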