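import Pool.Agent.MP_f1fec5_al.Pol.Sep
import Pool.Agent.MP_f1fec5_al.Pol.Val
import Pool.Agent.MP_f1fec5_al.Aff.Fld

/-! The case of finite transcendence degree. -/

namespace Pool.Agent.MP_f1fec5_al.Pol

open Ideal Aff Aff.ModelAux Polynomial Cardinal AlgebraicIndependent

universe u v

section Tr

variable {R : Type*} [CommRing R] [IsDomain R]

lemma finTr_of_trdeg {E : Type*} [Field E] [Algebra R E] [FaithfulSMul R E]
    (hR : ∀ r : R, ∃ n : ℤ, r = n) (h : Algebra.trdeg R E < ℵ₀) : FinTr E := by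
  obtain ⟨s, hs⟩ := exists_isTranscendenceBasis R E
  rw [← hs.cardinalMk_eq_trdeg, lt_aleph0_iff_set_finite] at h
  refine ⟨h.toFinset, ⟨fun z => alg_mono Subtype.val_injective ?_ (hs.isAlgebraic.isAlgebraic z)⟩⟩
  rintro ⟨a, ha⟩
  refine ⟨⟨a, Algebra.adjoin_induction (fun x hx => Subfield.subset_closure (by simpa using hx))
    (fun r => ?_) (fun _ _ _ _ => add_mem) (fun _ _ _ _ => mul_mem) ha⟩, rfl⟩
  obtain ⟨n, rfl⟩ := hR r
  rw [map_intCast]
  exact intCast_mem _ n

omit [IsDomain R] in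
lemma FinTr.trdeg {E : Type*} [Field E] [Algebra R E] [FaithfulSMul R E] (h : FinTr E) :
    Algebra.trdeg R E < ℵ₀ := by
  obtain ⟨T, hT⟩ := h
  have h1 : Subfield.closure (T : Set E) ≤ clF R (T : Set E) := Subfield.closure_le.2
    fun x hx => mem_clF.2 ((matroid R E).subset_closure T (Set.subset_univ _) hx)
  have : Algebra.IsAlgebraic (Algebra.adjoin R (T : Set E)) E := ⟨fun z => by
    refine mem_cl.1 (mem_cl_of_alg ?_)
    exact alg_mono (A := Subfield.closure (T : Set E)) Subtype.val_injective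
      (fun a => ⟨⟨a, h1 a.2⟩, rfl⟩) (hT.isAlgebraic z)⟩
  exact (Algebra.IsAlgebraic.trdeg_le_cardinalMk R (T : Set E)).trans_lt
    (lt_aleph0_iff_set_finite.2 T.finite_toSet)

lemma trdeg_poly2 (F : Type u) [Field F] [Algebra R F] [FaithfulSMul R F] :
    Algebra.trdeg R F[X][X] = Algebra.trdeg R F + 2 := by
  rw [← trdeg_add_eq R F[X], ← trdeg_add_eq R F (A := F[X]), Polynomial.trdeg_of_isDomain,
    Polynomial.trdeg_of_isDomain, add_assoc, one_add_one_eq_two]

end Tr

variable {A : Type u} {D : Type v} [CommRing A] [CommRing D] [IsDomain D] {m : Model A[X][X] D}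

variable (m) in
/-- An embedding of the model in a polynomial ring over a residue field. -/
structure Dat (F : Type u) [Field F] where
  φ : A →+* F
  ι : D →+* F[X][X]
  fr : ∀ c, ∃ a b, φ b ≠ 0 ∧ c = φ a / φ b
  reg : ∀ s ∈ nonZeroDivisors A[X][X], m2 φ s ≠ 0
  inj : Function.Injective ι
  ev : ∀ d, (ι d).evalEval 0 0 = φ (sg m 0 0 d)
  map : ∀ d, d ≠ 0 → (Iof m d).map (m2 φ) = span {ι d}

namespace Dat

variable {F F' : Type u} [Field F] [Field F'] (t : Dat m F)

omit [IsDomain D] in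
lemma le_iff {d : D} (hd : d ≠ 0) (q : Ideal F[X][X]) :
    Iof m d ≤ q.comap (m2 t.φ) ↔ t.ι d ∈ q := by
  rw [← map_le_iff_le_comap, t.map d hd, span_singleton_le_iff_mem]

omit [IsDomain D] in
lemma mem_iff {q : Ideal F[X][X]} (h : Reg (q.comap (m2 t.φ))) (d : D) :
    d ∈ m.F (q.comap (m2 t.φ)) ↔ t.ι d ∈ q := by
  by_cases hd : d = 0
  · simp [hd]
  · rw [ModelAux.mem_iff m hd h, t.le_iff hd]

omit [IsDomain D] in
lemma comap_le {q q' : Ideal F[X][X]} (h : Reg (q.comap (m2 t.φ)))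
    (hq : ∀ d, t.ι d ∈ q → t.ι d ∈ q') : q.comap (m2 t.φ) ≤ q'.comap (m2 t.φ) := by
  obtain ⟨d, hd, hd0⟩ := Submodule.exists_mem_ne_zero_of_ne_bot (m.ne_bot h)
  have h' : Reg (q'.comap (m2 t.φ)) := (Iof_spec m hd0).1.mono
    ((t.le_iff hd0 q').2 (hq d ((t.mem_iff h d).1 hd)))
  exact (m.le_iff h h').1 fun d hd => (t.mem_iff h' d).2 (hq d ((t.mem_iff h d).1 hd))

omit [IsDomain D] in
lemma reg_of {q : Ideal F[X][X]} (h : X ∈ q) : Reg (q.comap (m2 t.φ)) :=
  ⟨X, by simpa using h, monic_X.mem_nonZeroDivisors⟩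

omit [IsDomain D] in
lemma ker_le : RingHom.ker (evalEvalRingHom (0 : F) 0) ≤
    span (t.ι '' {d | (t.ι d).evalEval 0 0 = 0}) := by
  have := t.comap_le (q := RingHom.ker (evalEvalRingHom (0 : F) 0))
    (q' := span (t.ι '' {d | (t.ι d).evalEval 0 0 = 0})) (t.reg_of (by simp [RingHom.mem_ker]))
    fun d hd => subset_span ⟨d, hd, rfl⟩
  intro f hf
  refine span_le.2 ?_ (mem_span_C_X_sub_C_X_sub_C_iff_eval_eval_eq_zero (a := 0) (b := C 0).2 hf)
  rintro _ (rfl | rfl)
  · simpa using this (x := C X) (by simp [RingHom.mem_ker])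
  · simpa using this (x := X) (by simp [RingHom.mem_ker])

lemma fr' (c : F) : ∃ a b, (t.ι b).evalEval 0 0 ≠ 0 ∧
    c = (t.ι a).evalEval 0 0 / (t.ι b).evalEval 0 0 := by
  obtain ⟨a, b, hb, rfl⟩ := t.fr c
  obtain ⟨a, rfl⟩ := sg_surj m 0 0 a
  obtain ⟨b, rfl⟩ := sg_surj m 0 0 b
  exact ⟨a, b, by rwa [t.ev], by rw [t.ev, t.ev]⟩

include t in
omit [IsDomain D] in
lemma hchar (n : ℤ) (h : (n : F) = 0) : (n : A) = 0 := by
  have : (n : D) = 0 := t.inj (by
    rw [map_intCast, map_zero, ← map_intCast (C.comp C : F →+* F[X][X]), h, map_zero])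
  rw [← map_intCast (sg m 0 0), this, map_zero]

section Base

variable {R : Type} [CommRing R] [IsDomain R] [Algebra R D] [Algebra R F] [FaithfulSMul R F]
  (hR : ∀ r : R, ∃ n : ℤ, r = n)

omit [IsDomain R] in
include hR in
lemma commutes {S T : Type*} [Ring S] [Ring T] [Algebra R S] [Algebra R T] (f : S →+* T) (r : R) :
    f (algebraMap R S r) = algebraMap R T r := by
  obtain ⟨n, rfl⟩ := hR r
  simp

include hR t

omit [IsDomain R] in
lemma exists_indep : ∃ s : Set F, IsTranscendenceBasis R ((↑) : s → F) ∧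
    ∃ w : s ⊕ Fin 2 → D, TrdInd R w ⊥ := by
  let χ : D →ₐ[R] F := ⟨(evalEvalRingHom 0 0).comp t.ι, commutes hR _⟩
  have : Algebra.IsAlgebraic (Algebra.adjoin R (Set.range χ)) F := ⟨fun c => by
    obtain ⟨a, b, hb, rfl⟩ := t.fr' c
    exact trd_alg_div (R := Algebra.adjoin R (Set.range χ)) ⟨_, Algebra.subset_adjoin ⟨a, rfl⟩⟩
      ⟨_, Algebra.subset_adjoin ⟨b, rfl⟩⟩ hb⟩
  obtain ⟨s, hs, hb⟩ := exists_isTranscendenceBasis_subset (R := R) (Set.range χ)
  choose g hg using hs
  have h0 : AlgebraicIndependent R fun i : s => χ (g i.2) := by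
    rw [show (fun i : s => χ (g i.2)) = Subtype.val from funext fun i => hg i.2]
    exact hb.1
  have hp : (span {(X : F[X][X])}).IsPrime := (span_singleton_prime X_ne_zero).2 prime_X
  have hX := t.reg_of (mem_span_singleton_self X)
  have hK := t.reg_of (q := RingHom.ker (evalEvalRingHom (0 : F) 0)) (by simp [RingHom.mem_ker])
  refine ⟨s, hb, trd_chain 2 ![⊥, (span {X}).comap t.ι, RingHom.ker χ]
    (Fin.strictMono_iff_lt_succ.2 fun i => ?_) (fun i => ?_) (trd_of_hom χ le_rfl h0)⟩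
  · fin_cases i
    · obtain ⟨d, hd, hd0⟩ := Submodule.exists_mem_ne_zero_of_ne_bot (m.ne_bot hX)
      exact bot_lt_iff_ne_bot.2 fun h => hd0 ((Submodule.eq_bot_iff _).1 h d
        ((t.mem_iff hX d).1 hd))
    · refine lt_of_le_of_ne (fun d hd => ?_) fun h => ?_
      · obtain ⟨c, hc⟩ := mem_span_singleton.1 (mem_comap.1 hd)
        change evalEval 0 0 (t.ι d) = 0
        rw [hc, evalEval_mul, evalEval_X, zero_mul]
      · have := t.comap_le (q' := span {X}) hK (fun d hd => (le_of_eq h.symm) hd) (x := C X)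
          (by simp [RingHom.mem_ker])
        simp [mem_span_singleton, X_dvd_iff] at this
  · fin_cases i
    exacts [isPrime_bot, comap_isPrime _ _, RingHom.ker_isPrime χ]

lemma trdeg_le {T : Type u} [CommRing T] [Algebra R T] (θ : D →+* T) (hθ : Function.Injective θ) :
    Algebra.trdeg R F + 2 ≤ Algebra.trdeg R T := by
  obtain ⟨s, hs, w, hw⟩ := t.exists_indep hR
  simpa [hs.cardinalMk_eq_trdeg] using
    (trd_to_indep (⟨θ, commutes hR θ⟩ : D →ₐ[R] T) hθ hw).cardinalMk_le_trdeg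

lemma isAlgebraic (h : Algebra.trdeg R F < ℵ₀) :
    @Algebra.IsAlgebraic D F[X][X] _ _ t.ι.toAlgebra := by
  obtain ⟨s, hs, w, hw⟩ := t.exists_indep hR
  let _ := t.ι.toAlgebra
  let θ : D →ₐ[R] F[X][X] := ⟨t.ι, commutes hR _⟩
  have hb := (trd_to_indep θ t.inj hw).isTranscendenceBasis_of_trdeg_le
    (by rw [trdeg_poly2]; exact add_lt_aleph0 h natCast_lt_aleph0)
    (by simp [trdeg_poly2, hs.cardinalMk_eq_trdeg])
  refine ⟨fun z => alg_mono Subtype.val_injective ?_ (hb.isAlgebraic.isAlgebraic z)⟩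
  rintro ⟨a, ha⟩
  exact (Algebra.adjoin_le (S := θ.range) (by rintro _ ⟨i, rfl⟩; exact ⟨w i, rfl⟩)) ha

lemma exists_emb (h : Algebra.trdeg R F < ℵ₀) (W : Type v) [Field W] [IsAlgClosed W] [Algebra D W]
    [FaithfulSMul D W] [Algebra.IsAlgebraic D W] [Algebra R W] [FaithfulSMul R W] :
    ∃ j : F[X][X] →+* W, (∀ d, j (t.ι d) = algebraMap D W d) ∧ Algebra.trdeg R W < ℵ₀ ∧
      j X ∉ (matroid R W).closure (Set.range (j.comp C)) ∧
      (matroid R W).closure (insert (j X) (Set.range (j.comp C))) = Set.univ := by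
  have := t.isAlgebraic hR h
  let _ := t.ι.toAlgebra
  have : FaithfulSMul D F[X][X] := (faithfulSMul_iff_algebraMap_injective _ _).2 t.inj
  let j : F[X][X] →ₐ[D] W := IsAlgClosed.lift
  have hj : Function.Injective j := (injective_iff_map_eq_zero _).2 fun b hb => by
    by_contra hb0
    obtain ⟨r, hr, c, hc⟩ := (Algebra.IsAlgebraic.isAlgebraic (R := D) b).exists_nonzero_dvd
      (mem_nonZeroDivisors_of_ne_zero hb0)
    refine hr (FaithfulSMul.algebraMap_injective D W ?_)
    rw [← j.commutes, hc, map_mul, hb, zero_mul, map_zero]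
  refine ⟨j, j.commutes, ?_, fun hx => ?_, Set.eq_univ_of_forall fun z => mem_cl.2 ?_⟩
  · let _ := (j : F[X][X] →+* W).toAlgebra
    have := IsScalarTower.of_algebraMap_eq (R := R) (S := F[X][X]) (A := W)
      fun r => (commutes hR _ r).symm
    have : FaithfulSMul F[X][X] W := (faithfulSMul_iff_algebraMap_injective _ _).2 hj
    have : Algebra.IsAlgebraic F[X][X] W := ⟨fun z => alg_mono
      (FaithfulSMul.algebraMap_injective D W) (fun d => ⟨_, j.commutes d⟩)
      (Algebra.IsAlgebraic.isAlgebraic z)⟩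
    rw [← lift_lt_aleph0, ← lift_trdeg_add_eq R F[X][X] W, trdeg_eq_zero (A := W), trdeg_poly2,
      lift_zero, add_zero, lift_lt_aleph0]
    exact add_lt_aleph0 h natCast_lt_aleph0
  · let _ := ((j : F[X][X] →+* W).comp C).toAlgebra
    obtain ⟨f, hf0, hf⟩ := alg_mono (B := F[X]) Subtype.val_injective (by
      rintro ⟨a, ha⟩
      refine Algebra.adjoin_induction (p := fun a _ => a ∈ (algebraMap F[X] W).range)
        (fun _ h => h) (fun r => ⟨_, commutes hR _ r⟩)
        (fun _ _ _ _ => add_mem) (fun _ _ _ _ => mul_mem) ha) (mem_cl.1 hx)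
    refine hf0 (hj ?_)
    rw [map_zero, ← hf, aeval_def]
    conv_lhs => rw [← eval₂_C_X (p := f)]
    exact hom_eval₂ f C (j : F[X][X] →+* W) X
  · refine alg_mono (FaithfulSMul.algebraMap_injective D W) (fun d => ?_)
      (Algebra.IsAlgebraic.isAlgebraic z)
    refine ⟨⟨algebraMap D W d, ?_⟩, rfl⟩
    rw [← j.commutes]
    induction algebraMap D F[X][X] d using Polynomial.induction_on' with
    | add p q hp hq => rw [map_add]; exact add_mem hp hq
    | monomial n a =>
      rw [← C_mul_X_pow_eq_monomial, map_mul, _root_.map_pow]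
      exact mul_mem (Algebra.subset_adjoin (Set.mem_insert_of_mem _ ⟨a, rfl⟩))
        (pow_mem (Algebra.subset_adjoin (Set.mem_insert _ _)) n)

omit hR t in
lemma exists_ideal {W : Type*} [Field W] (j : F[X][X] →+* W) (V : ValuationSubring W)
    (h1 : Set.range (j.comp C) ⊆ V) (h2 : j X ∈ V) :
    (∀ b, j b ∈ V) ∧ ∃ q : Ideal F[X][X], q ≠ ⊤ ∧ ∀ b, b ∈ q ↔ j b ∈ V.nonunits := by
  have h : ∀ b, j b ∈ V := fun b => by
    induction b using Polynomial.induction_on' with
    | add p q hp hq => rw [map_add]; exact add_mem hp hq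
    | monomial n a =>
      rw [← C_mul_X_pow_eq_monomial, map_mul, _root_.map_pow]
      exact mul_mem (h1 ⟨a, rfl⟩) (pow_mem h2 n)
  exact ⟨h, (IsLocalRing.maximalIdeal V).comap (j.codRestrict V h),
    comap_ne_top _ (IsLocalRing.maximalIdeal.isMaximal V).ne_top,
    fun b => (V.coe_mem_nonunits_iff (a := ⟨j b, h b⟩)).symm⟩

theorem ker_eq [FaithfulSMul R D] (t' : Dat m F') [Algebra R F'] [FaithfulSMul R F']
    (h : Algebra.trdeg R F < ℵ₀) (a : A) : t.φ a = 0 ↔ t'.φ a = 0 := by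
  have h' : Algebra.trdeg R F' < ℵ₀ := lt_of_le_of_lt (le_self_add.trans
    (t'.trdeg_le hR t.ι t.inj)) (by rw [trdeg_poly2]; exact add_lt_aleph0 h natCast_lt_aleph0)
  let W := AlgebraicClosure (FractionRing D)
  have : Algebra.IsAlgebraic D (FractionRing D) :=
    IsLocalization.isAlgebraic _ (nonZeroDivisors _)
  have : Algebra.IsAlgebraic D W := Algebra.IsAlgebraic.trans _ (FractionRing D) _
  have : FaithfulSMul D W := FaithfulSMul.trans D (FractionRing D) W
  have : FaithfulSMul R W := FaithfulSMul.trans R D W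
  obtain ⟨j, hj, hW, k1, k2⟩ := t.exists_emb hR h W
  obtain ⟨j', hj', -, k1', k2'⟩ := t'.exists_emb hR h' W
  have : (matroid R W).RankFinite :=
    Matroid.rankFinite_iff_cRank_lt_aleph0.2 (matroid_cRank_eq R W ▸ hW)
  obtain ⟨V, ⟨w, hw0, hw⟩, e1, e2, e3, e4⟩ := exists_val k1 k1' k2 k2' (cl_infinite _)
  obtain ⟨hV, q, hq, hq1⟩ := exists_ideal j V e1 e3
  obtain ⟨-, q', hq', hq1'⟩ := exists_ideal j' V e2 e4
  obtain ⟨d, hd0, hd⟩ : ∃ d : D, d ≠ 0 ∧ algebraMap D W d ∈ V.nonunits := by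
    let _ : Algebra D V := ((algebraMap D W).codRestrict V fun d => hj d ▸ hV _).toAlgebra
    have := IsScalarTower.of_algebraMap_eq (R := D) (S := V) (A := W) fun _ => rfl
    obtain ⟨r, hr, c, hc⟩ := ((isAlgebraic_algebraMap_iff (R := D) (A := W)
      (a := (⟨w, V.nonunits_subset hw⟩ : V)) Subtype.val_injective).1
      (Algebra.IsAlgebraic.isAlgebraic _)).exists_nonzero_dvd
      (mem_nonZeroDivisors_of_ne_zero fun h => hw0 (congrArg Subtype.val h))
    exact ⟨r, hr, (V.coe_mem_nonunits_iff (a := algebraMap D V r)).2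
      (hc ▸ mul_mem_right _ _ (V.coe_mem_nonunits_iff.1 hw))⟩
  have r1 : Reg (q.comap (m2 t.φ)) :=
    (Iof_spec m hd0).1.mono ((t.le_iff hd0 q).2 ((hq1 _).2 (hj d ▸ hd)))
  have r2 : Reg (q'.comap (m2 t'.φ)) :=
    (Iof_spec m hd0).1.mono ((t'.le_iff hd0 q').2 ((hq1' _).2 (hj' d ▸ hd)))
  have e : q.comap (m2 t.φ) = q'.comap (m2 t'.φ) := m.inj r1 r2 (Ideal.ext fun d => by
    rw [t.mem_iff r1, t'.mem_iff r2, hq1, hq1', hj, hj'])
  have e' : C (C (t.φ a)) ∈ q ↔ C (C (t'.φ a)) ∈ q' := by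
    simpa using SetLike.ext_iff.1 e (C (C a))
  constructor
  · intro h0
    by_contra h1
    exact hq' (eq_top_of_isUnit_mem _ (e'.1 (by simp [h0])) (((Ne.isUnit h1).map C).map C))
  · intro h0
    by_contra h1
    exact hq (eq_top_of_isUnit_mem _ (e'.2 (by simp [h0])) (((Ne.isUnit h1).map C).map C))

theorem exists_kill [FaithfulSMul R D] [IsNoetherianRing A] (h : Algebra.trdeg R F < ℵ₀) (ν : A)
    (hν : t.φ ν = 0) : ∃ s, t.φ s ≠ 0 ∧ s * ν = 0 := by
  rcases exists_der t.φ t.fr t.hchar with h0 | ⟨δ, hδ, ν, hν, hν'⟩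
  · exact h0 ν hν
  exfalso
  obtain ⟨κ, _, _, g, p, hp, hg, hsp⟩ := exists_basis (finTr_of_trdeg hR h) t.φ t.fr
  let L := FractionRing F[X][X]
  let K := FractionRing D
  have a1 := t.isAlgebraic hR h
  let _ := t.ι.toAlgebra
  have : FaithfulSMul D F[X][X] := (faithfulSMul_iff_algebraMap_injective _ _).2 t.inj
  have := (faithfulSMul_iff_algebraMap_injective F[X][X] L).2 (IsFractionRing.injective _ _)
  have := (faithfulSMul_iff_algebraMap_injective D L).2
    ((IsFractionRing.injective F[X][X] L).comp t.inj)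
  let _ : Algebra K L := FractionRing.liftAlgebra D L
  have := FractionRing.isScalarTower_liftAlgebra D L
  have hc : ∀ d, algebraMap K L (algebraMap D K d) = algebraMap F[X][X] L (t.ι d) :=
    fun d => (IsScalarTower.algebraMap_apply D K L d).symm
  have a2 : Algebra.IsAlgebraic F[X][X] L := IsLocalization.isAlgebraic _ (nonZeroDivisors _)
  have a3 : Algebra.IsAlgebraic D L := Algebra.IsAlgebraic.trans D F[X][X] L
  have a4 : Algebra.IsAlgebraic K L := Algebra.IsAlgebraic.extendScalars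
    (IsFractionRing.injective D K)
  have : Algebra.IsSeparable K L := by
    obtain ⟨q, hq⟩ := CharP.exists K
    rcases CharP.char_is_prime_or_zero K q with hpr | rfl
    · have : Fact q.Prime := ⟨hpr⟩
      have : CharP L q := charP_of_injective_algebraMap (algebraMap K L).injective q
      have : CharP F q := (algebraMap F L).charP (algebraMap F L).injective q
      have : FaithfulSMul R K := FaithfulSMul.trans R D K
      have hK : Algebra.trdeg R K < ℵ₀ := by
        rw [← lift_lt_aleph0]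
        refine (lift_trdeg_le_of_injective (⟨algebraMap K L, commutes hR _⟩ : K →ₐ[R] L)
          (algebraMap K L).injective).trans_lt ?_
        rw [lift_lt_aleph0, ← trdeg_add_eq R F[X][X], trdeg_eq_zero (A := L), trdeg_poly2, add_zero]
        exact add_lt_aleph0 h natCast_lt_aleph0
      have := essFiniteType t.ι hc t.fr' q ((finTr_of_trdeg hR hK).pf q)
      have := formallyUnramified t.ι hc t.fr' hsp t.ker_le
      exact Algebra.FormallyUnramified.isSeparable K L
    · have := CharP.charP_to_charZero K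
      infer_instance
  have := Algebra.FormallyEtale.of_isSeparable K L
  have := Algebra.FormallyEtale.of_isLocalization (Rₘ := K) (nonZeroDivisors D)
  have := Algebra.FormallyEtale.comp D K L
  exact no_der m t.φ t.reg hδ hν hν' g p hp hg fun π hπ δ hδ =>
    dep_of_rank (L := L) _ (rank_le_of_span hsp) (by simp) π hπ δ hδ

end Base

end Dat

lemma exists_dat {A : Type u} [CommRing A] (m : Model A[X][X][X] D) {F : Type u} [Field F]
    (φ : A[X] →+* F) (hfr : ∀ c, ∃ a b, φ b ≠ 0 ∧ c = φ a / φ b) {a : A[X]} (ha : a ≠ 0)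
    (h : ∀ c, φ c = 0 → a * c = 0) : ∃ t : Dat m F, t.φ = φ := by
  obtain ⟨ι, h1, h2, h3⟩ := exists_iota m φ (m2_ne_zero φ ha h)
  exact ⟨⟨φ, ι, hfr, m2_ne_zero φ ha h, h1, fun d => by simpa using h2 d 0 0, h3⟩, rfl⟩

theorem isDomain_of_finTr {A : Type u} [CommRing A] [IsNoetherianRing A] (m : Model A[X][X][X] D)
    {F : Type u} [Field F] (t : Dat m F) (h : FinTr F) : IsDomain A[X] := by
  let p := ringChar D
  have c1 : CharP D p := ringChar.charP D
  have cF : ∀ {F : Type u} [Field F] (t : Dat m F), CharP F p := fun {F} _ t =>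
    have := charP_of_injective_ringHom t.inj p
    (C.comp C : F →+* F[X][X]).charP (C_injective.comp C_injective) p
  have : IsDomain (ZMod p) := (ZMod.castHom_injective D (n := p)).isDomain _
  have hR : ∀ r : ZMod p, ∃ n : ℤ, r = n := fun r => (ZMod.intCast_surjective r).imp
    fun _ => Eq.symm
  have hf : ∀ (S : Type _) [CommRing S] [CharP S p], @FaithfulSMul (ZMod p) S
      (ZMod.algebra S p).toSMul := fun S _ _ =>
    letI := ZMod.algebra S p
    (faithfulSMul_iff_algebraMap_injective _ _).2 (ZMod.castHom_injective S)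
  let _ := ZMod.algebra D p
  have : FaithfulSMul (ZMod p) D :=
    (faithfulSMul_iff_algebraMap_injective _ _).2 (ZMod.castHom_injective D)
  have := cF t
  let _ := ZMod.algebra F p
  have := hf F
  have h1 := h.trdeg (R := ZMod p)
  refine Function.Injective.isDomain t.φ ((injective_iff_map_eq_zero _).2 fun ν hν => ?_)
  obtain ⟨s, hs, e⟩ := t.exists_kill hR h1 ν hν
  refine (mem_nonZeroDivisors_iff_left.1 ((regular_iff s).2 fun P hP hsP => hs ?_)) _ e
  obtain ⟨hP1, a, ha⟩ := isAssociatedPrime_iff.1 hP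
  obtain ⟨t', ht'⟩ := exists_dat m (algebraMap A[X] P.ResidueField) (fun c => by
    obtain ⟨x, y, hy, rfl⟩ := IsFractionRing.div_surjective (A[X] ⧸ P) c
    obtain ⟨x, rfl⟩ := Ideal.Quotient.mk_surjective x
    obtain ⟨y, rfl⟩ := Ideal.Quotient.mk_surjective y
    have : algebraMap (A[X] ⧸ P) P.ResidueField (Ideal.Quotient.mk P y) ≠ 0 :=
      IsFractionRing.to_map_ne_zero_of_mem_nonZeroDivisors hy
    exact ⟨x, y, this, rfl⟩) (a := a)
    (by rintro rfl; exact hP1.ne_top (by rw [ha]; ext; simp)) fun c hc => by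
      rw [algebraMap_residueField_eq_zero, ha] at hc
      simpa [mul_comm] using hc
  have := cF t'
  let _ := ZMod.algebra P.ResidueField p
  have := hf P.ResidueField
  rw [t.ker_eq hR t' h1, ht', algebraMap_residueField_eq_zero]
  exact hsP

end Pool.Agent.MP_f1fec5_al.Pol
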