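import Pool.Agent.MP_f1fec5_al.Pol.Fin

/-! Polynomial rings in at least three variables over a Noetherian ring. -/

namespace Pool.Agent.MP_f1fec5_al.Pol

open Ideal Aff Aff.ModelAux Cardinal
open scoped Polynomial

universe u v

lemma of_equiv {R S : Type u} [CommRing R] [CommRing S] [Nontrivial R] (e : R ≃+* S)
    (h : HasDomainModel.{u, v} S) : HasDomainModel.{u, v} R := by
  have := e.symm.toEquiv.nontrivial_congr.2 ‹_›
  have reg : ∀ {R S : Type u} [CommRing R] [CommRing S] (e : R ≃+* S) {X : Ideal R}, Reg X →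
      Reg (X.map (e : R →+* S)) := fun e _ ⟨x, hx, hx'⟩ =>
    ⟨e x, mem_map_of_mem _ hx, mem_nonZeroDivisors_of_injective (f := e.symm) e.symm.injective
      (by simpa using hx')⟩
  refine RModel.hasDomainModel ⟨fun X => X.map (e : R →+* S), reg e, fun _ _ => ?_,
    fun _ _ => Ideal.map_mul _ _ _, fun Z hZ => ⟨_, reg e.symm hZ, ?_⟩⟩ h
  · rw [map_le_iff_le_comap, comap_map_of_bijective (e : R →+* S) e.bijective]
  · exact map_of_equiv e.symm

lemma trdeg_le_bot {B S T : Type u} [CommRing B] [Nontrivial B] [CommRing S] [CommRing T]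
    [Nontrivial T] [Algebra B S] (hB : ∀ r : B, ∃ n : ℤ, r = n) (f : S →+* T)
    (hf : Function.Injective f) : Algebra.trdeg B S ≤ Algebra.trdeg (⊥ : Subring T) T := by
  let g : B →+* (⊥ : Subring T) := (f.comp (algebraMap B S)).codRestrict _ fun r => by
    obtain ⟨n, rfl⟩ := hB r
    rw [map_intCast]
    exact intCast_mem _ n
  have hg : Function.Surjective g := fun ⟨x, hx⟩ => by
    obtain ⟨n, rfl⟩ := Subring.mem_bot.1 hx
    exact ⟨n, map_intCast g n⟩
  exact ciSup_le' fun s => (AlgebraicIndependent.ringHom_of_comp_eq g f s.2 hg hf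
    rfl).cardinalMk_le_trdeg

lemma int_bot (S : Type u) [CommRing S] (r : (⊥ : Subring S)) : ∃ n : ℤ, r = n :=
  (Subring.mem_bot.1 r.2).imp fun _ h => Subtype.ext h.symm

lemma card_le_trdeg {B S : Type u} [CommRing B] [Nontrivial B] [CommRing S] [IsDomain S]
    [Algebra B S] [FaithfulSMul B S] (hB : ∀ r : B, ∃ n : ℤ, r = n) :
    #S ≤ max (Algebra.trdeg B S) ℵ₀ := by
  obtain ⟨s, hs⟩ := exists_isTranscendenceBasis B S
  have := hs.isAlgebraic
  have h1 := Algebra.IsAlgebraic.cardinalMk_le_max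
    (Algebra.adjoin B (Set.range ((↑) : s → S))) S
  have h2 := Algebra.cardinalMk_adjoin_le (R := B) (Set.range ((↑) : s → S))
  have : Countable B := Function.Surjective.countable (f := ((↑) : ℤ → B))
    fun r => (hB r).imp fun _ => Eq.symm
  rw [← hs.cardinalMk_eq_trdeg]
  refine h1.trans (max_le (h2.trans (max_le (max_le ?_ ?_) ?_)) ?_)
  exacts [mk_le_aleph0.trans (le_max_right _ _), mk_range_le.trans (le_max_left _ _),
    le_max_right _ _, le_max_right _ _]

lemma trdeg_mv (S ι : Type u) [CommRing S] [IsDomain S] :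
    Algebra.trdeg (⊥ : Subring S) (MvPolynomial ι S) = Algebra.trdeg (⊥ : Subring S) S + #ι := by
  rw [← trdeg_add_eq (⊥ : Subring S) S (A := MvPolynomial ι S), MvPolynomial.trdeg_of_isDomain,
    lift_id]

open MvPolynomial

variable {A ι : Type u} [CommRing A]

lemma mccoy {f g : MvPolynomial ι A} (hg : g ≠ 0) (h : f * g = 0) :
    ∃ c, c ≠ 0 ∧ ∀ n, f.coeff n * c = 0 := by
  classical
  induction hn : g.support.card using Nat.strong_induction_on generalizing g with
  | _ k ih =>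
  by_cases hall : ∀ n, C (f.coeff n) * g = 0
  · obtain ⟨i, hi⟩ := ne_zero_iff.1 hg
    exact ⟨_, hi, fun n => by simpa using congrArg (coeff i) (hall n)⟩
  let s := f.support.filter fun n => C (f.coeff n) * g ≠ 0
  have hs : s.Nonempty := by
    obtain ⟨n, hn⟩ := not_forall.1 hall
    exact ⟨n, Finset.mem_filter.2 ⟨mem_support_iff.2 fun h => hn (by simp [h]), hn⟩⟩
  obtain ⟨a, ha, b, hb, hu⟩ := UniqueSums.uniqueAdd_of_nonempty hs (support_nonempty.2 hg)
  have h0 : f.coeff a * g.coeff b = 0 := by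
    have := congrArg (coeff (a + b)) h
    rw [coeff_mul, coeff_zero, Finset.sum_eq_single (a, b)] at this
    · exact this
    · rintro ⟨x, y⟩ hxy hne
      by_contra h1
      have hx : x ∈ s := Finset.mem_filter.2 ⟨mem_support_iff.2 (left_ne_zero_of_mul h1),
        fun h2 => h1 (by simpa using congrArg (coeff y) h2)⟩
      obtain ⟨rfl, rfl⟩ := hu hx (mem_support_iff.2 (right_ne_zero_of_mul h1))
        (by simpa using hxy)
      exact hne rfl
    · simp
  refine ih _ (hn ▸ Finset.card_lt_card ⟨fun x hx => ?_, fun hx => ?_⟩)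
    (Finset.mem_filter.1 ha).2 (by rw [mul_left_comm, h, mul_zero]) rfl
  · rw [mem_support_iff, coeff_C_mul] at hx
    exact mem_support_iff.2 (right_ne_zero_of_mul hx)
  · have := hx hb
    rw [mem_support_iff, coeff_C_mul] at this
    exact this h0

lemma map_mk_eq_zero (P : Ideal A) (f : MvPolynomial ι A) :
    map (Ideal.Quotient.mk P) f = 0 ↔ ∀ n, f.coeff n ∈ P := by
  simp [MvPolynomial.ext_iff, coeff_map, Ideal.Quotient.eq_zero_iff_mem]

lemma kill {P : Ideal A} {a : A} (ha : P = Submodule.colon ⊥ {a}) {f : MvPolynomial ι A}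
    (hf : map (Ideal.Quotient.mk P) f = 0) : C a * f = 0 := by
  ext n
  have := (map_mk_eq_zero P f).1 hf n
  rw [ha] at this
  rw [coeff_C_mul, mul_comm]
  simpa using this

lemma ne_zero_of_colon {P : Ideal A} (hP : P.IsPrime) {a : A} (ha : P = Submodule.colon ⊥ {a}) :
    a ≠ 0 := by
  rintro rfl
  exact hP.ne_top (by rw [ha]; ext; simp)

variable [IsNoetherianRing A]

lemma regular_mv (f : MvPolynomial ι A) : f ∈ nonZeroDivisors (MvPolynomial ι A) ↔
    ∀ P ∈ associatedPrimes A A, map (Ideal.Quotient.mk P) f ≠ 0 := by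
  refine ⟨fun hf P hP h0 => ?_, fun h => mem_nonZeroDivisors_iff_left.2 fun g hg => ?_⟩
  · obtain ⟨hP1, a, ha⟩ := isAssociatedPrime_iff.1 hP
    exact ne_zero_of_colon hP1 ha
      (C_eq_zero.1 (mem_nonZeroDivisors_iff_right.1 hf _ (kill ha h0)))
  · by_contra hg0
    obtain ⟨c, hc, hc'⟩ := mccoy hg0 hg
    obtain ⟨P, hP, hle⟩ := exists_le_isAssociatedPrime_of_isNoetherianRing A c hc
    exact h P hP ((map_mk_eq_zero P f).2 fun n => hle (by simpa using hc' n))

theorem suff [Nontrivial A] [Nonempty ι] (h1 : ∀ n : ℤ, (n : A) = 0 ∨ (n : A) ∈ nonZeroDivisors A)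
    (h2 : ∀ P ∈ associatedPrimes A A,
      max #A ℵ₀ ≤ Algebra.trdeg (⊥ : Subring (A ⧸ P)) (A ⧸ P) + #ι) :
    HasDomainModel.{u, u} (MvPolynomial ι A) := by
  classical
  refine hasDomainModel_of_bigTr ((associatedPrimes.finite A A).toFinset.image
    fun P => RingHom.ker (map (σ := ι) (Ideal.Quotient.mk P))) ?_ (fun x => ?_) (fun n => ?_) ?_
  · simp only [Finset.mem_image, Set.Finite.mem_toFinset]
    rintro _ ⟨P, hP, rfl⟩
    have := hP.isPrime
    exact RingHom.ker_isPrime _
  · simp [regular_mv, RingHom.mem_ker]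
  · refine (h1 n).imp (fun h => ?_) fun h => (regular_mv _).2 fun P hP h0 => ?_
    · rw [← map_intCast (C : A →+* _), h, map_zero]
    · rw [← map_intCast (C : A →+* _), map_C, C_eq_zero, Ideal.Quotient.eq_zero_iff_mem] at h0
      exact (regular_iff _).1 h P hP h0
  · simp only [Finset.mem_image, Set.Finite.mem_toFinset]
    rintro _ ⟨P, hP, rfl⟩
    have := hP.isPrime
    have := RingHom.ker_isPrime (map (σ := ι) (Ideal.Quotient.mk P))
    let e := (RingHom.quotientKerEquivOfSurjective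
      (map_surjective (σ := ι) _ (Ideal.Quotient.mk_surjective (I := P)))).symm
    refine bigTr_of_trdeg (le_trans ?_ (trdeg_le_bot (int_bot (A ⧸ P)) e.toRingHom e.injective))
    rw [trdeg_mv]
    exact cardinalMk_le_max.trans (max_le (max_le ((le_max_left _ _).trans (h2 P hP))
      le_add_self) ((le_max_right _ _).trans (h2 P hP)))

theorem nec [Nontrivial A] {B : Type u} [CommRing B] [Nontrivial B]
    (e₁ : MvPolynomial (Option ι) A ≃+* B[X]) (hB : Finite ι → IsNoetherianRing B)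
    (h : HasDomainModel.{u, v} (MvPolynomial (Option (Option (Option ι))) A)) (hA : ¬ IsDomain A) : (∀ n : ℤ, (n : A) = 0 ∨ (n : A) ∈ nonZeroDivisors A) ∧
    ∀ P ∈ associatedPrimes A A,
      max #A ℵ₀ ≤ Algebra.trdeg (⊥ : Subring (A ⧸ P)) (A ⧸ P) + #(Option (Option (Option ι))) := by
  let e := (optionEquivLeft A (Option (Option ι))).toRingEquiv.trans (Polynomial.mapEquiv
    ((optionEquivLeft A (Option ι)).toRingEquiv.trans (Polynomial.mapEquiv e₁)))
  obtain ⟨D, _, _, ⟨m⟩⟩ := (of_equiv (R := B[X][X][X]) e.symm h).exists_model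
  have key : ∀ (P : Ideal A) [P.IsPrime], P ∈ associatedPrimes A A →
      Nonempty (Dat m (FractionRing (MvPolynomial (Option ι) (A ⧸ P)))) := fun P _ hP => by
    obtain ⟨hP1, a, ha⟩ := isAssociatedPrime_iff.1 hP
    have hi := IsFractionRing.injective (MvPolynomial (Option ι) (A ⧸ P))
      (FractionRing (MvPolynomial (Option ι) (A ⧸ P)))
    have hs := (map_surjective (σ := Option ι) _ (Ideal.Quotient.mk_surjective (I := P))).comp
      e₁.symm.surjective
    refine (exists_dat m (((algebraMap (MvPolynomial (Option ι) (A ⧸ P))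
      (FractionRing (MvPolynomial (Option ι) (A ⧸ P)))).comp (map (Ideal.Quotient.mk P))).comp
      (e₁.symm : _ →+* _)) (fun c => ?_) (a := e₁ (C a))
      (by simpa using ne_zero_of_colon hP1 ha) fun c hc => ?_).nonempty
    · obtain ⟨x, y, hy, rfl⟩ := IsFractionRing.div_surjective (MvPolynomial (Option ι) (A ⧸ P)) c
      obtain ⟨x, rfl⟩ := hs x
      obtain ⟨y, rfl⟩ := hs y
      exact ⟨x, y, IsFractionRing.to_map_ne_zero_of_mem_nonZeroDivisors hy, rfl⟩
    · simpa using congrArg e₁ (kill ha ((injective_iff_map_eq_zero _).1 hi _ hc))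
  have hC : Function.Injective ((e₁ : _ →+* B[X]).comp (C : A →+* MvPolynomial (Option ι) A)) :=
    e₁.injective.comp (C_injective _ _)
  refine ⟨fun n => ?_, fun P hP => ?_⟩
  · by_cases h0 : (n : A) = 0
    · exact Or.inl h0
    refine Or.inr ((regular_iff _).2 fun P hP hn => h0 (hC ?_))
    have := hP.isPrime
    obtain ⟨t⟩ := key P hP
    rw [map_intCast, map_zero]
    refine t.hchar n ?_
    rw [← map_intCast (algebraMap (A ⧸ P) (FractionRing (MvPolynomial (Option ι) (A ⧸ P)))), ←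
      map_intCast (Ideal.Quotient.mk P),
      Ideal.Quotient.eq_zero_iff_mem.2 hn, map_zero]
  have := hP.isPrime
  obtain ⟨t⟩ := key P hP
  set F := FractionRing (MvPolynomial (Option ι) (A ⧸ P))
  have : Algebra.IsAlgebraic (MvPolynomial (Option ι) (A ⧸ P)) F :=
    IsLocalization.isAlgebraic _ (nonZeroDivisors _)
  have := (faithfulSMul_iff_algebraMap_injective (MvPolynomial (Option ι) (A ⧸ P)) F).2
    (IsFractionRing.injective _ _)
  have : FaithfulSMul (⊥ : Subring (A ⧸ P)) F :=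
    FaithfulSMul.trans _ (MvPolynomial (Option ι) (A ⧸ P)) F
  have e1 : Algebra.trdeg (⊥ : Subring (A ⧸ P)) F =
      Algebra.trdeg (⊥ : Subring (A ⧸ P)) (A ⧸ P) + #(Option ι) := by
    rw [← trdeg_add_eq _ (MvPolynomial (Option ι) (A ⧸ P)), trdeg_eq_zero (A := F), add_zero,
      trdeg_mv]
  have e2 : Algebra.trdeg (⊥ : Subring (A ⧸ P)) F[X][X] =
      Algebra.trdeg (⊥ : Subring (A ⧸ P)) (A ⧸ P) + #(Option (Option (Option ι))) := by
    rw [trdeg_poly2, e1, mk_option (α := Option (Option ι)), mk_option (α := Option ι),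
      add_assoc, add_assoc (#(Option ι)), one_add_one_eq_two]
  rw [← e2]
  have h0 : ℵ₀ ≤ Algebra.trdeg (⊥ : Subring (A ⧸ P)) F[X][X] := by
    by_contra hlt
    rw [not_le] at hlt
    have h1 := (le_self_add.trans (trdeg_poly2 F).ge).trans_lt hlt
    have : Finite (Option ι) := lt_aleph0_iff_finite.1 ((le_add_self.trans e1.ge).trans_lt h1)
    have := hB (Finite.of_injective _ (Option.some_injective ι))
    have := isDomain_of_finTr m t (finTr_of_trdeg (int_bot _) h1)
    exact hA (hC.isDomain _)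
  refine max_le (le_trans ?_ ((card_le_trdeg (int_bot _)).trans (max_le le_rfl h0))) h0
  refine (mk_le_of_injective hC).trans (lift_le.{v}.1 ?_)
  exact (lift_mk_le_lift_mk_of_surjective (sg_surj m 0 0)).trans
    (lift_mk_le_lift_mk_of_injective t.inj)

lemma exists_option (ι : Type u) (n : ℕ) (h : (n : Cardinal) + 1 ≤ #ι) :
    ∃ κ : Type u, (n : Cardinal) ≤ #κ ∧ Nonempty (ι ≃ Option κ) := by
  classical
  obtain ⟨a⟩ : Nonempty ι := mk_ne_zero_iff.1 (Cardinal.one_le_iff_ne_zero.1 (le_add_self.trans h))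
  refine ⟨_, ?_, ⟨(Equiv.optionSubtypeNe a).symm⟩⟩
  rwa [← (Equiv.optionSubtypeNe a).cardinal_eq, mk_option, add_one_le_add_one_iff] at h

theorem main [Nontrivial A] (hι : 3 ≤ #ι) :
    HasDomainModel.{u, max u v} (MvPolynomial ι A) ↔ IsDomain A ∨
      ((∀ n : ℤ, (n : A) = 0 ∨ (n : A) ∈ nonZeroDivisors A) ∧ ∀ P ∈ associatedPrimes A A,
        max #A ℵ₀ ≤ Algebra.trdeg (⊥ : Subring (A ⧸ P)) (A ⧸ P) + #ι) := by
  obtain ⟨κ₁, h1, ⟨e₁⟩⟩ := exists_option ι 2 (by norm_num; exact hι)
  refine ⟨fun h => ?_, ?_⟩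
  · obtain ⟨κ₂, h2, ⟨e₂⟩⟩ := exists_option κ₁ 1 (by norm_num; exact h1)
    obtain ⟨κ₃, -, ⟨e₃⟩⟩ := exists_option κ₂ 0 (by simpa using h2)
    let e := e₁.trans (e₂.trans e₃.optionCongr).optionCongr
    rw [e.cardinal_eq]
    exact or_iff_not_imp_left.2 (nec (optionEquivLeft A κ₃).toRingEquiv (fun _ => inferInstance)
      (of_equiv (renameEquiv A e).symm.toRingEquiv h))
  · have : Nonempty ι := ⟨e₁.symm none⟩
    rintro (h | ⟨h1, h2⟩)
    · refine HasDomainModel.ulift (Model.hasDomainModel (D := MvPolynomial ι A)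
        ⟨id, fun _ _ => Iff.rfl, fun _ _ => rfl, ?_, fun Z hZ => ⟨Z, ?_, rfl⟩⟩)
      · rintro X ⟨x, hx, hx'⟩ rfl
        exact nonZeroDivisors.ne_zero hx' hx
      · obtain ⟨x, hx, hx'⟩ := Submodule.exists_mem_ne_zero_of_ne_bot hZ
        exact ⟨x, hx, mem_nonZeroDivisors_of_ne_zero hx'⟩
    · exact (suff h1 h2).ulift

end Pool.Agent.MP_f1fec5_al.Pol
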