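import Pool.Agent.MP_f1fec5_al.Pol.Ser

/-! Coefficient fields, fields of finite transcendence degree, and differentials. -/

namespace Pool.Agent.MP_f1fec5_al.Pol

open Polynomial KaehlerDifferential Cardinal

universe u v

theorem exists_section {L F : Type*} [CommRing L] [Field F] (π : L →+* F)
    (hs : Function.Surjective π) (h2 : ∀ a b, π a = 0 → π b = 0 → a * b = 0)
    (hchar : ∀ n : ℤ, (n : F) = 0 → (n : L) = 0) : ∃ s : F →+* L, ∀ c, π (s c) = c := by
  obtain ⟨p, hp⟩ := CharP.exists F
  rcases CharP.char_is_prime_or_zero F p with hpr | rfl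
  · have : Nontrivial L := π.domain_nontrivial
    have : CharP L p := (CharP.charP_iff_prime_eq_zero hpr).2 (by
      simpa using hchar p (by simp))
    have : Fact p.Prime := ⟨hpr⟩
    obtain ⟨S, hS0, hS⟩ := zorn_le_nonempty₀ {S : Subring L | ∀ a ∈ S, π a = 0 → a = 0}
      (fun c hc hch y hy => ⟨sSup c, fun a ha h0 => by
        obtain ⟨T, hT, haT⟩ := (Subring.mem_sSup_of_directedOn ⟨y, hy⟩ hch.directedOn).1 ha
        exact hc hT a haT h0, fun z hz => le_sSup hz⟩) (frobenius L p).range (by
        rintro _ ⟨a, rfl⟩ h0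
        rw [frobenius_def] at h0 ⊢
        rw [map_pow] at h0
        have h1 := eq_zero_of_pow_eq_zero h0
        obtain ⟨k, hk⟩ := Nat.exists_eq_add_of_le hpr.two_le
        rw [hk, pow_add, sq, h2 a a h1 h1, zero_mul])
    let E : Subfield F := { S.map π with
      inv_mem' := by
        rintro _ ⟨a, ha, rfl⟩
        obtain ⟨b, hb⟩ := hs (π a)⁻¹
        refine ⟨a ^ (p - 1) * b ^ p, mul_mem (pow_mem ha _) (hS0 ⟨b, rfl⟩), ?_⟩
        by_cases h0 : π a = 0
        · simp [hb, h0, hpr.ne_zero]
        · obtain ⟨k, hk⟩ := Nat.exists_eq_add_of_le' hpr.one_le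
          rw [map_mul, map_pow, map_pow, hb, hk, Nat.add_sub_cancel, pow_succ, ← mul_assoc,
            ← mul_pow, mul_inv_cancel₀ h0, one_pow, one_mul] }
    let e : S ≃+* E := RingEquiv.ofBijective
      ((π.comp S.subtype).codRestrict E fun a => ⟨a, a.2, rfl⟩)
      ⟨(injective_iff_map_eq_zero _).2 fun a ha =>
        Subtype.ext (hS.1 a a.2 (congrArg Subtype.val ha)),
        fun ⟨_, a, ha, rfl⟩ => ⟨⟨a, ha⟩, rfl⟩⟩
    let s : E →+* L := S.subtype.comp e.symm.toRingHom
    have hs1 : ∀ c, π (s c) = c := fun c => congrArg Subtype.val (e.apply_symm_apply c)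
    have hs2 : ∀ a : S, s (e a) = a := fun a => congrArg Subtype.val (e.symm_apply_apply a)
    have hE : ∀ g, g ∈ E := fun g => by
      by_contra hg
      obtain ⟨g, rfl⟩ := hs g
      let c := e ⟨g ^ p, hS0 ⟨g, rfl⟩⟩
      have hc : (c : F) = π g ^ p := map_pow π g p
      have hm : X ^ p - C c = minpoly E (π g) := minpoly.eq_of_irreducible_of_monic
        (X_pow_sub_C_irreducible_of_prime hpr fun b hb => hg (by
          have : (b : F) ^ p = π g ^ p := by rw [← hc, ← hb]; rfl
          rw [← frobenius_inj F p this]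
          exact b.2)) (by simp [hc, Subfield.algebraMap_ofSubfield])
        (monic_X_pow_sub_C _ hpr.ne_zero)
      have hle : S ≤ (eval₂RingHom s g).range := fun a ha => ⟨C (e ⟨a, ha⟩), by simp [hs2]⟩
      refine hg ⟨g, hS.2 (y := (eval₂RingHom s g).range) ?_ hle ⟨X, by simp⟩, rfl⟩
      rintro _ ⟨f, rfl⟩ h0
      obtain ⟨f', rfl⟩ := minpoly.dvd E (π g) (p := f) (by
        rw [coe_eval₂RingHom, hom_eval₂] at h0
        rw [aeval_def, ← h0]
        congr 1
        exact RingHom.ext fun c => (hs1 c).symm)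
      rw [map_mul, ← hm]
      simp [c, hs2]
    exact ⟨s.comp ((RingHom.id F).codRestrict E hE), fun c => hs1 _⟩
  · have := CharP.charP_to_charZero F
    obtain ⟨t, ht⟩ := exists_isTranscendenceBasis ℚ F
    have := ht.isAlgebraic_field
    have := Algebra.FormallySmooth.of_algebraicIndependent_of_isSeparable ht.1
    have : Algebra.FormallySmooth ℤ ℚ := .of_isLocalization (nonZeroDivisors ℤ)
    have : Algebra.FormallySmooth ℤ F := .comp ℤ ℚ F
    have hn : IsNilpotent (RingHom.ker (π.toIntAlgHom : L →+* F)) := ⟨2, by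
      rw [sq, Ideal.zero_eq_bot, eq_bot_iff, Ideal.mul_le]
      exact fun a ha b hb => h2 a b ha hb⟩
    exact ⟨Algebra.FormallySmooth.liftOfSurjective (AlgHom.id ℤ F) π.toIntAlgHom hs hn,
      fun c => Algebra.FormallySmooth.liftOfSurjective_apply _ π.toIntAlgHom hs hn c⟩

theorem exists_der {A F : Type*} [CommRing A] [IsNoetherianRing A] [Field F] (φ : A →+* F)
    (hfr : ∀ c, ∃ a b, φ b ≠ 0 ∧ c = φ a / φ b) (hchar : ∀ n : ℤ, (n : F) = 0 → (n : A) = 0) :
    (∀ ν, φ ν = 0 → ∃ s, φ s ≠ 0 ∧ s * ν = 0) ∨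
      ∃ δ : A →+ F, IsDer φ δ ∧ ∃ ν, φ ν = 0 ∧ δ ν ≠ 0 := by
  have := RingHom.ker_isPrime φ
  let L := Localization.AtPrime (RingHom.ker φ)
  let π : L →+* F := IsLocalization.lift (M := (RingHom.ker φ).primeCompl) (g := φ)
    fun y => Ne.isUnit y.2
  have hπ : ∀ a, π (algebraMap A L a) = φ a := fun a => IsLocalization.lift_eq _ a
  have hz : ∀ z : L, ∃ a s, φ s ≠ 0 ∧ z * algebraMap A L s = algebraMap A L a := fun z => by
    obtain ⟨⟨a, s⟩, h⟩ := IsLocalization.surj (RingHom.ker φ).primeCompl z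
    exact ⟨a, s, s.2, h⟩
  by_cases h : ∀ ν, φ ν = 0 → algebraMap A L ν ∈ RingHom.ker π * RingHom.ker π
  · left
    obtain ⟨r, hr, hr'⟩ := Submodule.exists_sub_one_mem_and_smul_eq_zero_of_fg_of_le_smul
      (RingHom.ker π) (RingHom.ker π) (IsNoetherian.noetherian _) fun z hz' => by
        obtain ⟨a, s, hs, e⟩ := hz z
        have h1 := h a (by rw [← hπ, ← e, map_mul, show π z = 0 from hz', zero_mul])
        rw [← e] at h1
        exact (Ideal.mul_unit_mem_iff_mem _
          (IsLocalization.map_units L (⟨s, hs⟩ : (RingHom.ker φ).primeCompl))).1 h1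
    intro ν hν
    obtain ⟨a, s, hs, e⟩ := hz r
    have h1 : algebraMap A L (a * ν) = 0 := by
      have := hr' (algebraMap A L ν) (by rw [RingHom.mem_ker, hπ, hν])
      rw [map_mul, ← e, mul_right_comm, ← smul_eq_mul r, this, zero_mul]
    obtain ⟨t, ht⟩ := (IsLocalization.map_eq_zero_iff (RingHom.ker φ).primeCompl L _).1 h1
    refine ⟨t * a, ?_, by rw [mul_assoc, ht]⟩
    rw [RingHom.mem_ker, map_sub, map_one, sub_eq_zero] at hr
    rw [map_mul, ← hπ a, ← e, map_mul, hr, one_mul, hπ]
    exact mul_ne_zero t.2 hs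
  · right
    push Not at h
    obtain ⟨ν, hν, hν'⟩ := h
    let L' := L ⧸ RingHom.ker π * RingHom.ker π
    let π' : L' →+* F := Ideal.Quotient.lift _ π fun a ha => Ideal.mul_le_left ha
    let j : A →+* L' := (Ideal.Quotient.mk _).comp (algebraMap A L)
    have hj : ∀ a, π' (j a) = φ a := hπ
    have h2 : ∀ a b, π' a = 0 → π' b = 0 → a * b = 0 := fun a b ha hb => by
      obtain ⟨a, rfl⟩ := Ideal.Quotient.mk_surjective a
      obtain ⟨b, rfl⟩ := Ideal.Quotient.mk_surjective b
      exact Ideal.Quotient.eq_zero_iff_mem.2 (Ideal.mul_mem_mul ha hb)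
    obtain ⟨s, hs⟩ := exists_section π' (fun c => by
      obtain ⟨a, b, hb, rfl⟩ := hfr c
      obtain ⟨w, hw⟩ := (IsLocalization.map_units L
        (⟨b, hb⟩ : (RingHom.ker φ).primeCompl)).exists_right_inv
      refine ⟨j a * Ideal.Quotient.mk _ w, ?_⟩
      have := congrArg π hw
      rw [map_mul, map_one, hπ] at this
      rw [map_mul, hj, div_eq_mul_inv, ← eq_inv_of_mul_eq_one_right this]
      rfl) h2 fun n hn => by rw [← map_intCast j, hchar n hn, map_zero]
    let _ := s.toAlgebra
    obtain ⟨l, hl⟩ := Module.Projective.exists_dual_ne_zero F (x := j ν)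
      fun h => hν' (Ideal.Quotient.eq_zero_iff_mem.1 h)
    refine ⟨AddMonoidHom.mk' (fun a => l (j a - s (φ a))) fun a b => ?_, fun a b => ?_, ν, hν, ?_⟩
    · rw [← map_add, map_add j, map_add φ, map_add s, add_sub_add_comm]
    · have := h2 (j a - s (φ a)) (j b - s (φ b)) (by simp [hj, hs]) (by simp [hj, hs])
      simp only [AddMonoidHom.mk'_apply, ← smul_eq_mul, ← map_smul, ← map_add]
      congr 1
      simp only [Algebra.smul_def, RingHom.algebraMap_toAlgebra, map_mul]
      linear_combination this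
    · simpa [hν] using hl

/-- finite transcendence degree over the prime field -/
def FinTr (E : Type*) [Field E] : Prop :=
  ∃ T : Finset E, Algebra.IsAlgebraic (Subfield.closure (T : Set E)) E

/-- finite degree of imperfection -/
def PF (p : ℕ) (E : Type*) [Field E] : Prop :=
  ∃ H : Finset E, Subring.closure (Set.range (fun y : E => y ^ p) ∪ H) = ⊤

lemma relrank_lt {E : Type*} [Field E] {A B : Subfield E} (h : A ≤ B) (s : Set E) (hf : s.Finite)
    (hs : B ≤ Subfield.closure (A ∪ s)) (hs' : s ⊆ B) (hi : ∀ x ∈ s, IsIntegral A x) :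
    Subfield.relrank A B < ℵ₀ := by
  have := hf.to_subtype
  have := IntermediateField.finiteDimensional_adjoin hi
  rw [Subfield.relrank_eq_rank_of_le h, show Subfield.extendScalars h =
    IntermediateField.adjoin A s from le_antisymm (fun x hx => (Subfield.closure_le
      (t := (IntermediateField.adjoin A s).toSubfield)).2 (Set.union_subset
        (fun a ha => (IntermediateField.adjoin A s).algebraMap_mem ⟨a, ha⟩)
        (IntermediateField.subset_adjoin _ _)) (hs hx)) (IntermediateField.adjoin_le_iff.2 hs')]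
  exact Module.rank_lt_aleph0 _ _

theorem FinTr.pf {E : Type*} [Field E] (h : FinTr E) (p : ℕ) [Fact p.Prime] [CharP E p] :
    PF p E := by
  obtain ⟨T, hT⟩ := h
  let φ := frobenius E p
  have hle : ∀ A : Subfield E, A.map φ ≤ A := by
    rintro A _ ⟨a, ha, rfl⟩
    exact pow_mem ha p
  set E₁ := Subfield.closure (T : Set E)
  obtain ⟨c, hc⟩ := lt_aleph0.1 (relrank_lt (hle E₁) T T.finite_toSet
    (Subfield.closure_mono Set.subset_union_right) Subfield.subset_closure fun x hx =>
      IsIntegral.of_pow (Fact.out : p.Prime).pos (isIntegral_algebraMap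
        (x := (⟨φ x, x, Subfield.subset_closure hx, rfl⟩ : E₁.map φ))))
  have hr : Module.rank φ.fieldRange E ≤ c := rank_le fun u hu => by
    let E₀ := Subfield.closure ((E₁ : Set E) ∪ u)
    have h1 : E₁ ≤ E₀ := fun x hx => Subfield.subset_closure (Or.inl hx)
    have hu0 : ∀ x : u, (x : E) ∈ E₀ := fun x => Subfield.subset_closure (Or.inr x.2)
    obtain ⟨n, hn⟩ := lt_aleph0.1 (relrank_lt h1 u u.finite_toSet le_rfl
      (fun x hx => hu0 ⟨x, hx⟩) fun x _ => (hT.isAlgebraic x).isIntegral)
    have k1 := Subfield.relrank_mul_relrank (hle E₁) h1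
    have k2 := Subfield.relrank_mul_relrank (Subfield.gc_map_comap φ |>.monotone_l h1) (hle E₀)
    have k3 : Subfield.relrank (E₁.map φ) (E₀.map φ) = Subfield.relrank E₁ E₀ := by
      simpa using Subfield.lift_relrank_map_map E₁ E₀ φ
    have hn0 : (n : Cardinal) ≠ 0 := by
      rw [← hn, Subfield.relrank_eq_rank_of_le h1]
      exact rank_pos.ne'
    rw [← k2, k3, hc, hn, mul_comm] at k1
    have k4 : Subfield.relrank (E₀.map φ) E₀ = c := by
      obtain ⟨n', hn'⟩ := lt_aleph0.1 (lt_of_le_of_lt (Cardinal.le_mul_left hn0)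
        (k1 ▸ mul_lt_aleph0 (natCast_lt_aleph0 (n := n)) natCast_lt_aleph0 :
          n * Subfield.relrank (E₀.map φ) E₀ < ℵ₀))
      rw [hn'] at k1 ⊢
      norm_cast at k1 hn0 ⊢
      exact (Nat.eq_of_mul_eq_mul_left (Nat.pos_of_ne_zero hn0) k1).symm
    rw [Subfield.relrank_eq_rank_of_le (hle E₀)] at k4
    have k5 : LinearIndependent (E₀.map φ)
        fun x : u => (⟨x, hu0 x⟩ : Subfield.extendScalars (hle E₀)) := by
      rw [Fintype.linearIndependent_iff] at hu ⊢
      intro g hg i
      have := hu (fun i => ⟨g i, by obtain ⟨a, -, ha⟩ := (g i).2; exact ⟨a, ha⟩⟩) (by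
        simpa using! congrArg Subtype.val hg) i
      exact Subtype.ext (congrArg Subtype.val this :)
    have := k5.cardinal_lift_le_rank
    rw [k4] at this
    simpa using this
  have : Module.Finite φ.fieldRange E :=
    Module.rank_lt_aleph0_iff.1 (hr.trans_lt natCast_lt_aleph0)
  obtain ⟨H, hH⟩ := this.fg_top
  refine ⟨H, eq_top_iff.2 fun x _ => ?_⟩
  have hx : x ∈ Submodule.span φ.fieldRange (H : Set E) := hH ▸ Submodule.mem_top
  induction hx using Submodule.span_induction with
  | mem x hx => exact Subring.subset_closure (Or.inr hx)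
  | zero => exact zero_mem _
  | add x y _ _ hx hy => exact add_mem (hx trivial) (hy trivial)
  | smul a x _ hx => exact mul_mem (Subring.subset_closure (Or.inl a.2)) (hx trivial)

/-- the elements that a derivation maps into a submodule -/
def derSub {S M : Type*} [CommRing S] [AddCommGroup M] [Module S M] (θ : Derivation ℤ S M)
    (N : Submodule S M) : Subring S where
  carrier := {s | θ s ∈ N}
  mul_mem' := fun {a b} ha hb => by
    rw [Set.mem_ofPred_eq, θ.leibniz]
    exact add_mem (N.smul_mem _ hb) (N.smul_mem _ ha)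
  one_mem' := by simp
  add_mem' := fun {a b} ha hb => by
    rw [Set.mem_ofPred_eq, map_add]
    exact add_mem ha hb
  zero_mem' := by simp
  neg_mem' := fun {a} ha => by
    rw [Set.mem_ofPred_eq, map_neg]
    exact neg_mem ha

/-- the same for a field -/
def derSubf {S M : Type*} [Field S] [AddCommGroup M] [Module S M] (θ : Derivation ℤ S M)
    (N : Submodule S M) : Subfield S :=
  { derSub θ N with
    inv_mem' := fun a ha => by
      change θ a⁻¹ ∈ N
      rw [θ.leibniz_inv]
      exact N.smul_mem _ ha }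

lemma span_eq_top_of_D {S : Type*} [CommRing S] {N : Submodule S Ω[S⁄ℤ]}
    (h : ∀ s, D ℤ S s ∈ N) : N = ⊤ :=
  eq_top_iff.2 (span_range_derivation ℤ S ▸ Submodule.span_le.2 (by rintro _ ⟨s, rfl⟩; exact h s))

theorem FinTr.finite {E : Type*} [Field E] (h : FinTr E) : Module.Finite E Ω[E⁄ℤ] := by
  classical
  obtain ⟨p, hp⟩ := CharP.exists E
  rcases CharP.char_is_prime_or_zero E p with hpr | rfl
  · have : Fact p.Prime := ⟨hpr⟩
    obtain ⟨H, hH⟩ := h.pf p
    refine ⟨H.image (D ℤ E), span_eq_top_of_D fun s => ?_⟩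
    change s ∈ derSub (D ℤ E) (Submodule.span E (H.image (D ℤ E)))
    refine Subring.closure_le.2 ?_ (hH ▸ Subring.mem_top s)
    rintro _ (⟨y, rfl⟩ | hx)
    · change D ℤ E (y ^ p) ∈ Submodule.span E _
      rw [Derivation.leibniz_pow, ← Nat.cast_smul_eq_nsmul E, CharP.cast_eq_zero, zero_smul]
      exact zero_mem _
    · exact Submodule.subset_span (Finset.mem_image_of_mem _ hx)
  · have := CharP.charP_to_charZero E
    obtain ⟨T, hT⟩ := h
    have := Algebra.FormallyEtale.of_isSeparable (Subfield.closure (T : Set E)) E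
    refine ⟨T.image (D ℤ E), eq_top_iff.2 fun w _ => ?_⟩
    refine (isBaseChange_of_formallyEtale ℤ (Subfield.closure (T : Set E)) E).inductionOn w _
      (zero_mem _) (fun w => ?_) (fun s n hn => Submodule.smul_mem _ s hn) fun _ _ => add_mem
    have hw : w ∈ Submodule.span _ (Set.range (D ℤ (Subfield.closure (T : Set E)))) :=
      span_range_derivation ℤ (Subfield.closure (T : Set E)) ▸ Submodule.mem_top
    induction hw using Submodule.span_induction with
    | mem x hx =>
      obtain ⟨c, rfl⟩ := hx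
      rw [map_D]
      change (c : E) ∈ derSubf (D ℤ E) (Submodule.span E (T.image (D ℤ E)))
      refine Subfield.closure_le.2 (fun x hx => ?_) c.2
      exact Submodule.subset_span (Finset.mem_image_of_mem _ hx)
    | zero => simp
    | add x y _ _ hx hy => rw [map_add]; exact add_mem hx hy
    | smul a x _ hx => rw [map_smul]; exact Submodule.smul_of_tower_mem _ a hx

theorem exists_basis {A F : Type u} [CommRing A] [Field F] (h : FinTr F) (φ : A →+* F)
    (hfr : ∀ c, ∃ a b, φ b ≠ 0 ∧ c = φ a / φ b) :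
    ∃ (κ : Type u) (_ : Fintype κ) (_ : DecidableEq κ) (g : κ → A) (p : κ → F →+ F),
      (∀ i, IsDer (RingHom.id F) (p i)) ∧ (∀ i j, p j (φ (g i)) = if i = j then 1 else 0) ∧
      Submodule.span F (Set.range fun i => D ℤ F (φ (g i))) = ⊤ := by
  classical
  have := h.finite
  obtain ⟨κ, g, -, hsp, hli⟩ := exists_linearIndependent' F fun a => D ℤ F (φ a)
  have h1 : Submodule.span F (Set.range fun a => D ℤ F (φ a)) = ⊤ := span_eq_top_of_D fun c => by
    obtain ⟨a, b, -, rfl⟩ := hfr c
    change φ a / φ b ∈ derSubf (D ℤ F) (Submodule.span F (Set.range fun a => D ℤ F (φ a)))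
    refine div_mem ?_ ?_
    exacts [Submodule.subset_span ⟨a, rfl⟩, Submodule.subset_span ⟨b, rfl⟩]
  rw [h1] at hsp
  have := hli.finite
  let b := Module.Basis.mk hli hsp.ge
  refine ⟨κ, Fintype.ofFinite κ, inferInstance, g,
    fun j => ((b.coord j).compDer (D ℤ F)).toLinearMap.toAddMonoidHom,
    fun j => ((b.coord j).compDer (D ℤ F)).leibniz, fun i j => ?_, hsp⟩
  have : D ℤ F (φ (g i)) = b i := by simp [b]
  change b.coord j (D ℤ F (φ (g i))) = _
  rw [this, Module.Basis.coord_apply, b.repr_self, Finsupp.single_apply]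

lemma der_mem {F M : Type*} [Field F] {κ : Type*} {g : κ → F}
    (hg : Submodule.span F (Set.range fun i => D ℤ F (g i)) = ⊤) [AddCommGroup M]
    [Module F[X][X] M] (θ : Derivation ℤ F[X][X] M) (N : Submodule F[X][X] M)
    (h1 : ∀ i, θ (C (C (g i))) ∈ N) (h2 : θ X ∈ N) (h3 : θ (C X) ∈ N) (b : F[X][X]) : θ b ∈ N := by
  have h4 : ∀ c, θ (C (C c)) ∈ N := fun c => by
    let _ := Module.compHom M (algebraMap F F[X][X])
    have : IsScalarTower F F[X][X] M := IsScalarTower.of_compHom F F[X][X] M
    let l := (θ.compAlgebraMap F).liftKaehlerDifferential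
    have hl : ∀ c, l (D ℤ F c) = θ (C (C c)) := fun c =>
      Derivation.liftKaehlerDifferential_comp_D _ c
    rw [← hl]
    refine (Submodule.span_le (p := (N.restrictScalars F).comap l)).2 ?_ (hg ▸ Submodule.mem_top)
    rintro _ ⟨i, rfl⟩
    change l (D ℤ F (g i)) ∈ N
    rw [hl]
    exact h1 i
  change b ∈ derSub θ N
  induction b using Polynomial.induction_on' with
  | add p q hp hq => exact add_mem hp hq
  | monomial n a =>
    rw [← C_mul_X_pow_eq_monomial]
    refine mul_mem ?_ (pow_mem (S := derSub θ N) h2 n)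
    induction a using Polynomial.induction_on' with
    | add p q hp hq => rw [C_add]; exact add_mem hp hq
    | monomial k c =>
      rw [← C_mul_X_pow_eq_monomial, C_mul, C_pow]
      exact mul_mem (h4 c) (pow_mem (S := derSub θ N) h3 k)

theorem dep_of_rank {D L O : Type*} [CommRing D] [IsDomain D] [Field L] [Algebra D L]
    [FaithfulSMul D L] [Algebra.FormallyEtale D L] [CommRing O] [IsDomain O] {I : Type*}
    [Fintype I] (N : ℕ) (hN : Module.rank L Ω[L⁄ℤ] ≤ N) (hI : N < Fintype.card I)
    (π : D →+* O) (hπ : Function.Injective π) (δ : I → D →+ O) (hδ : ∀ i, IsDer π (δ i)) :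
    ∃ a : I → O, a ≠ 0 ∧ ∀ d, ∑ i, a i * δ i d = 0 := by
  classical
  have h1 : Module.rank D Ω[D⁄ℤ] ≤ N := by
    rw [← lift_le_nat_iff, ← (isBaseChange_of_formallyEtale ℤ D L).lift_rank_eq, lift_le_nat_iff]
    exact hN
  obtain ⟨s, hs, hs'⟩ := exists_maximal_linearIndepOn D (KaehlerDifferential.D ℤ D)
  have h2 : #s ≤ N := hs.cardinal_le_rank.trans h1
  have : Finite s := lt_aleph0_iff_finite.1 (h2.trans_lt natCast_lt_aleph0)
  have := Fintype.ofFinite s
  obtain ⟨a, ha, i, hi⟩ := Fintype.not_linearIndependent_iff.1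
    (show ¬ LinearIndependent O fun i (w : s) => δ i w from fun h => by
      have := h.fintype_card_le_finrank
      rw [Module.finrank_fintype_fun_eq_card] at this
      rw [mk_fintype, Nat.cast_le] at h2
      omega)
  refine ⟨a, fun h => hi (congrFun h i), fun d => ?_⟩
  let _ := π.toAlgebra
  let θ : Derivation ℤ D O := Derivation.mk'
    (AddMonoidHom.mk' (fun d => ∑ i, a i * δ i d) fun x y => by
      simp [mul_add, Finset.sum_add_distrib]).toIntLinearMap fun x y => by
      simp only [AddMonoidHom.coe_toIntLinearMap, AddMonoidHom.mk'_apply, hδ _ x y,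
        Algebra.smul_def, RingHom.algebraMap_toAlgebra, Finset.mul_sum, ← Finset.sum_add_distrib]
      exact Finset.sum_congr rfl fun i _ => by ring
  have h0 : ∀ w ∈ s, θ w = 0 := fun w hw => by simpa using! congrFun ha ⟨w, hw⟩
  change θ d = 0
  by_cases hd : d ∈ s
  · exact h0 d hd
  obtain ⟨c, hc, hc'⟩ := hs' d hd
  have := (Submodule.span_le (p := LinearMap.ker θ.liftKaehlerDifferential)).2 (by
    rintro _ ⟨w, hw, rfl⟩
    simpa using h0 w hw) hc'
  rw [LinearMap.mem_ker, map_smul, Derivation.liftKaehlerDifferential_comp_D, Algebra.smul_def,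
    mul_eq_zero] at this
  exact this.resolve_left fun h => hc (hπ (h.trans (map_zero π).symm))

end Pool.Agent.MP_f1fec5_al.Pol
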