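import Pool.Agent.MP_f1fec5_al.Pol.Sec

/-! Separability of the polynomial field over the fraction field of the model. -/

namespace Pool.Agent.MP_f1fec5_al.Pol

open Polynomial KaehlerDifferential Cardinal

universe u v

section Proj

variable {S : Type*} [CommRing S]

/-- the part of a polynomial with exponents divisible by `q` -/
noncomputable def pr (q : ℕ) (f : S[X]) : S[X] := expand S q (contract q f)

lemma coeff_pr {q : ℕ} (hq : q ≠ 0) (f : S[X]) (n : ℕ) :
    (pr q f).coeff n = if q ∣ n then f.coeff n else 0 := by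
  rw [pr, coeff_expand (Nat.pos_of_ne_zero hq)]
  split_ifs with h
  · rw [coeff_contract hq, Nat.div_mul_cancel h]
  · rfl

lemma pr_mul {q : ℕ} (hq : q ≠ 0) (f g : S[X]) :
    pr q (expand S q g * f) = expand S q g * pr q f := by
  rw [pr, mul_comm, contract_mul_expand hq, map_mul, mul_comm, pr]

lemma pr_sum {q : ℕ} (hq : q ≠ 0) {ι : Type*} (s : Finset ι) (f : ι → S[X]) :
    pr q (∑ i ∈ s, f i) = ∑ i ∈ s, pr q (f i) := by
  ext n
  simp only [coeff_pr hq, finsetSum_coeff]
  split_ifs <;> simp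

/-- the same in two variables -/
noncomputable def pr2 (q : ℕ) (f : S[X][X]) : S[X][X] :=
  (pr q f).sum fun n a => monomial n (pr q a)

lemma coeff_pr2' {q : ℕ} (hq : q ≠ 0) (f : S[X][X]) (n : ℕ) :
    (pr2 q f).coeff n = pr q ((pr q f).coeff n) := by
  rw [pr2, coeff_sum, Polynomial.sum_def, Finset.sum_eq_single n]
  · simp
  · intro b _ hb
    rw [coeff_monomial, if_neg hb]
  · intro h
    rw [notMem_support_iff.1 h]
    ext k
    simp [coeff_pr hq]

lemma coeff_pr2 {q : ℕ} (hq : q ≠ 0) (f : S[X][X]) (i j : ℕ) :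
    ((pr2 q f).coeff i).coeff j = if q ∣ i ∧ q ∣ j then (f.coeff i).coeff j else 0 := by
  rw [coeff_pr2' hq, coeff_pr hq, coeff_pr hq]
  by_cases h1 : q ∣ i <;> by_cases h2 : q ∣ j <;> simp [h1, h2]

lemma pow_eq_expand (p e : ℕ) [ExpChar S p] (u : S[X]) :
    u ^ p ^ e = expand S (p ^ e) (u.map (iterateFrobenius S p e)) := by
  rw [← map_expand, map_iterateFrobenius_expand]

lemma pr2_mul (p e : ℕ) [ExpChar S p] (u f : S[X][X]) :
    pr2 (p ^ e) (u ^ p ^ e * f) = u ^ p ^ e * pr2 (p ^ e) f := by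
  have hq : p ^ e ≠ 0 := (expChar_pow_pos S p e).ne'
  ext1 n
  rw [coeff_pr2' hq, pow_eq_expand, pr_mul hq, coeff_mul, coeff_mul, pr_sum hq]
  refine Finset.sum_congr rfl fun c _ => ?_
  rw [coeff_pr2' hq, coeff_expand (Nat.pos_of_ne_zero hq)]
  split_ifs
  · rw [coeff_map, iterateFrobenius_def, pow_eq_expand, pr_mul hq]
  · simpa using pr_mul hq ((pr (p ^ e) f).coeff c.2) 0

lemma exists_pr2 {p : ℕ} (hp : 1 < p) (f : S[X][X]) :
    ∃ e, pr2 (p ^ e) f = C (C (f.evalEval 0 0)) := by
  refine ⟨f.natDegree + ∑ i ∈ f.support, (f.coeff i).natDegree, ?_⟩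
  have h1 := Nat.lt_pow_self hp (n := f.natDegree + ∑ i ∈ f.support, (f.coeff i).natDegree)
  generalize p ^ (f.natDegree + ∑ i ∈ f.support, (f.coeff i).natDegree) = q at h1
  ext i j
  rw [coeff_pr2 (by omega), coeff_C]
  rcases Nat.eq_zero_or_pos i with rfl | hi
  · rw [if_pos rfl, coeff_C]
    rcases Nat.eq_zero_or_pos j with rfl | hj
    · simp [evalEval, coeff_zero_eq_eval_zero]
    · rw [if_neg hj.ne']
      split_ifs with h
      · by_cases h0 : 0 ∈ f.support
        · have := Finset.single_le_sum (f := fun i => (f.coeff i).natDegree)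
            (fun _ _ => Nat.zero_le _) h0
          exact coeff_eq_zero_of_natDegree_lt (by have := Nat.le_of_dvd hj h.2; omega)
        · rw [notMem_support_iff.1 h0, coeff_zero]
      · rfl
  · rw [if_neg hi.ne', coeff_zero]
    split_ifs with h
    · rw [coeff_eq_zero_of_natDegree_lt (p := f) (by have := Nat.le_of_dvd hi h.1; omega),
        coeff_zero]
    · rfl

end Proj

lemma PF.iter {K : Type*} [Field K] {p : ℕ} [ExpChar K p] {H : Set K}
    (h : Subring.closure (Set.range (fun y : K => y ^ p) ∪ H) = ⊤) (e : ℕ) :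
    Subring.closure (Set.range (fun y : K => y ^ p ^ e) ∪ H) = ⊤ := by
  induction e with
  | zero => exact eq_top_iff.2 fun x _ => Subring.subset_closure (Or.inl ⟨x, by simp⟩)
  | succ e ih =>
    rw [eq_top_iff, ← ih, Subring.closure_le]
    rintro _ (⟨y, rfl⟩ | hx)
    · refine (Subring.closure_le (t := (Subring.closure (Set.range (fun y : K => y ^ p ^ (e + 1))
        ∪ H)).comap (iterateFrobenius K p e))).2 ?_ (h ▸ Subring.mem_top y)
      rintro _ (⟨z, rfl⟩ | hz)
      · exact Subring.subset_closure (Or.inl ⟨z, by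
          simp only [iterateFrobenius_def]; rw [← pow_mul, pow_succ']⟩)
      · change (_ : K) ^ p ^ e ∈ Subring.closure _
        exact pow_mem (Subring.subset_closure (Set.mem_union_right _ hz)) _
    · exact Subring.subset_closure (Or.inr hx)

section Main

variable {D K F L : Type*} [CommRing D] [IsDomain D] [Field K] [Algebra D K] [IsFractionRing D K]
  [Field F] [Field L] [Algebra F[X][X] L] [IsFractionRing F[X][X] L] [Algebra K L]
  (ι : D →+* F[X][X]) (hc : ∀ d, algebraMap K L (algebraMap D K d) = algebraMap F[X][X] L (ι d))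
  (hfr : ∀ c : F, ∃ a b, (ι b).evalEval 0 0 ≠ 0 ∧ c = (ι a).evalEval 0 0 / (ι b).evalEval 0 0)

include hc hfr

theorem essFiniteType (p : ℕ) [Fact p.Prime] [CharP K p] [CharP F p] (hK : PF p K) :
    Algebra.EssFiniteType K L := by
  classical
  have hp : p.Prime := Fact.out
  obtain ⟨H0, hH0⟩ := hK
  choose a b hb hab using fun x : K => IsFractionRing.div_surjective D x
  let H : Finset D := H0.image fun x => a x * b x ^ (p - 1)
  have hH : Subring.closure (Set.range (fun y : K => y ^ p) ∪ algebraMap D K '' H) = ⊤ := by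
    rw [eq_top_iff, ← hH0, Subring.closure_le]
    rintro x (hx | hx)
    · exact Subring.subset_closure (Or.inl hx)
    · have e : x = algebraMap D K (a x * b x ^ (p - 1)) * (algebraMap D K (b x))⁻¹ ^ p := by
        obtain ⟨k, hk⟩ := Nat.exists_eq_add_of_le' hp.one_le
        have := IsFractionRing.to_map_ne_zero_of_mem_nonZeroDivisors (K := K) (hb x)
        rw [hk, Nat.add_sub_cancel, map_mul, map_pow]
        rw [pow_succ, mul_assoc, ← mul_assoc (_ ^ k), ← mul_pow, mul_inv_cancel₀ this, one_pow,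
          one_mul, ← div_eq_mul_inv, hab x]
      rw [e]
      exact mul_mem (Subring.subset_closure (Or.inr ⟨_, Finset.mem_image_of_mem _ hx, rfl⟩))
        (Subring.subset_closure (Or.inl ⟨_, rfl⟩))
  let j : F →+* L := (algebraMap F[X][X] L).comp (C.comp C)
  let s : Finset L := insert (algebraMap F[X][X] L X) (insert (algebraMap F[X][X] L (C X))
    (H.biUnion fun h => (ι h).coeffs.biUnion fun c => c.coeffs.image j))
  let K' := IntermediateField.adjoin K (s : Set L)
  let F' := K'.toSubfield.comap j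
  let B' := (m2 F'.subtype).range
  have mB : ∀ f, f ∈ B' ↔ ∀ i k, (f.coeff i).coeff k ∈ F' := fun f => by
    refine (lifts_iff_coeff_lifts (f := mapRingHom F'.subtype) f).trans (forall_congr' fun i => ?_)
    refine (lifts_iff_coeff_lifts (f := F'.subtype) _).trans (forall_congr' fun k => ?_)
    simp
  have hB : ∀ f ∈ B', algebraMap F[X][X] L f ∈ K' := by
    rintro _ ⟨f, rfl⟩
    induction f using Polynomial.induction_on' with
    | add p q hp hq => rw [map_add, map_add]; exact add_mem hp hq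
    | monomial n a =>
      rw [← C_mul_X_pow_eq_monomial, map_mul, map_pow, map_mul, map_pow]
      refine mul_mem ?_ (pow_mem (IntermediateField.subset_adjoin _ _ (by simp [s])) n)
      induction a using Polynomial.induction_on' with
      | add p q hp hq => rw [C_add, map_add, map_add]; exact add_mem hp hq
      | monomial k c =>
        rw [← C_mul_X_pow_eq_monomial, C_mul, C_pow, map_mul, map_pow, map_mul, map_pow]
        refine mul_mem ?_ (pow_mem (IntermediateField.subset_adjoin _ _ (by simp [s])) k)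
        rw [coe_mapRingHom, map_C, coe_mapRingHom, map_C]
        exact c.2
  have hHB : ∀ h ∈ H, ι h ∈ B' := fun h hh => (mB _).2 fun i k => by
    by_cases h0 : ((ι h).coeff i).coeff k = 0
    · rw [h0]
      exact zero_mem _
    refine IntermediateField.subset_adjoin _ _ ?_
    simp only [s, Finset.coe_insert, Set.mem_insert_iff, Finset.mem_coe, Finset.mem_biUnion]
    exact Or.inr (Or.inr ⟨h, hh, _, coeff_mem_coeffs (fun h1 => h0 (by rw [h1, coeff_zero])),
      Finset.mem_image_of_mem _ (coeff_mem_coeffs h0)⟩)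
  have hι : ∀ d, algebraMap F[X][X] L (ι d) ∈ K' := fun d => hc d ▸ K'.algebraMap_mem _
  have key : ∀ d, (ι d).evalEval 0 0 ∈ F' := fun d => by
    obtain ⟨e, he⟩ := exists_pr2 hp.one_lt (ι d)
    have hq : p ^ e ≠ 0 := pow_ne_zero _ hp.ne_zero
    let _ : Algebra D F[X][X] := ((iterateFrobenius F[X][X] p e).comp ι).toAlgebra
    have hm : ∀ x, algebraMap D F[X][X] x = ι x ^ p ^ e := fun _ => rfl
    have h1 : ∀ v ∈ Algebra.adjoin D (B' : Set F[X][X]),
        algebraMap F[X][X] L (pr2 (p ^ e) v) ∈ K' := fun v hv => by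
      rw [← Subalgebra.mem_toSubmodule, Algebra.adjoin_eq_span,
        show Submonoid.closure (B' : Set F[X][X]) = B'.toSubmonoid from
          Submonoid.closure_eq B'.toSubmonoid] at hv
      induction hv using Submodule.span_induction with
      | mem x hx =>
        refine hB _ ((mB _).2 fun i k => ?_)
        rw [coeff_pr2 hq]
        split_ifs
        exacts [(mB _).1 hx i k, zero_mem _]
      | zero =>
        rw [show pr2 (p ^ e) (0 : F[X][X]) = 0 by ext; simp [coeff_pr2 hq], map_zero]
        exact zero_mem _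
      | add x y _ _ hx hy =>
        rw [show pr2 (p ^ e) (x + y) = pr2 (p ^ e) x + pr2 (p ^ e) y by
          ext; simp only [coeff_pr2 hq, coeff_add]; split_ifs <;> simp, map_add]
        exact add_mem hx hy
      | smul c x _ hx =>
        rw [Algebra.smul_def, hm, pr2_mul, map_mul, map_pow]
        exact mul_mem (pow_mem (hι c) _) hx
    have h2 : ∀ k : K, ∃ b : D, b ≠ 0 ∧ ∃ v ∈ Algebra.adjoin D (B' : Set F[X][X]),
        algebraMap F[X][X] L (algebraMap D F[X][X] b) * algebraMap K L k =
          algebraMap F[X][X] L v := fun k => by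
      have hk : k ∈ Subring.closure (Set.range (fun y : K => y ^ p ^ e) ∪ algebraMap D K '' H) :=
        PF.iter hH e ▸ Subring.mem_top k
      induction hk using Subring.closure_induction with
      | mem x hx =>
        rcases hx with ⟨y, rfl⟩ | ⟨h, hh, rfl⟩
        · refine ⟨b y, nonZeroDivisors.ne_zero (hb y), _, Subalgebra.algebraMap_mem _ (a y), ?_⟩
          have := IsFractionRing.to_map_ne_zero_of_mem_nonZeroDivisors (K := K) (hb y)
          rw [hm, hm, map_pow, map_pow, map_pow, ← hc, ← hc, ← mul_pow, ← map_mul,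
            (div_eq_iff this).1 (hab y), mul_comm]
        · exact ⟨1, one_ne_zero, _, Algebra.subset_adjoin (hHB h hh), by simp [hc]⟩
      | zero => exact ⟨1, one_ne_zero, 0, zero_mem _, by simp⟩
      | one => exact ⟨1, one_ne_zero, 1, one_mem _, by simp⟩
      | add x y _ _ hx hy =>
        obtain ⟨b, hb, v, hv, e⟩ := hx
        obtain ⟨b', hb', v', hv', e'⟩ := hy
        refine ⟨b * b', mul_ne_zero hb hb', _, add_mem (mul_mem (Subalgebra.algebraMap_mem _ b') hv)
          (mul_mem (Subalgebra.algebraMap_mem _ b) hv'), ?_⟩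
        simp only [map_mul, map_add, ← e, ← e']
        ring
      | neg x _ hx =>
        obtain ⟨b, hb, v, hv, e⟩ := hx
        exact ⟨b, hb, -v, neg_mem hv, by simp [← e]⟩
      | mul x y _ _ hx hy =>
        obtain ⟨b, hb, v, hv, e⟩ := hx
        obtain ⟨b', hb', v', hv', e'⟩ := hy
        refine ⟨b * b', mul_ne_zero hb hb', _, mul_mem hv hv', ?_⟩
        simp only [map_mul, ← e, ← e']
        ring
    obtain ⟨b, hb, v, hv, e'⟩ := h2 (algebraMap D K d)
    rw [hc, ← map_mul] at e'
    have h3 := h1 v hv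
    rw [← IsFractionRing.injective F[X][X] L e', hm, pr2_mul, he, map_mul, map_pow] at h3
    have h4 : algebraMap F[X][X] L (ι b) ^ p ^ e ≠ 0 := pow_ne_zero _ (by
      rw [← hc]
      simpa using hb)
    have h5 := mul_mem (inv_mem (pow_mem (hι b) (p ^ e))) h3
    rwa [inv_mul_cancel_left₀ h4] at h5
  refine IntermediateField.fg_top_iff.1 ⟨s, eq_top_iff.2 fun l _ => ?_⟩
  have hF : ∀ c, c ∈ F' := fun c => by
    obtain ⟨a, b, -, rfl⟩ := hfr c
    exact div_mem (key a) (key b)
  obtain ⟨x, y, -, rfl⟩ := IsFractionRing.div_surjective F[X][X] l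
  exact div_mem (hB _ ((mB _).2 fun _ _ => hF _)) (hB _ ((mB _).2 fun _ _ => hF _))

omit [IsDomain D] [IsFractionRing D K] in
theorem formallyUnramified {κ : Type*} [Finite κ] {g : κ → F}
    (hg : Submodule.span F (Set.range fun i => KaehlerDifferential.D ℤ F (g i)) = ⊤)
    (hX : RingHom.ker (evalEvalRingHom (0 : F) 0) ≤
      Ideal.span (ι '' {d | (ι d).evalEval 0 0 = 0})) :
    Algebra.FormallyUnramified K L := by
  have := IsScalarTower.of_algebraMap_eq' (R := ℤ) (S := F[X][X]) (A := L) (RingHom.ext_int _ _)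
  let θ : Derivation ℤ F[X][X] Ω[L⁄K] :=
    ((KaehlerDifferential.D K L).restrictScalars ℤ).compAlgebraMap F[X][X]
  have hθ : ∀ b, θ b = KaehlerDifferential.D K L (algebraMap _ L b) := fun _ => rfl
  have h0 : ∀ d, θ (ι d) = 0 := fun d => by rw [hθ, ← hc, Derivation.map_algebraMap]
  let N := Submodule.span F[X][X] (insert (θ X) (insert (θ (C X))
    (Set.range fun i => θ (C (C (g i))))))
  have hN : ∀ b, θ b ∈ N := der_mem hg θ N
    (fun i => Submodule.subset_span (Or.inr (Or.inr ⟨i, rfl⟩)))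
    (Submodule.subset_span (Or.inl rfl)) (Submodule.subset_span (Or.inr (Or.inl rfl)))
  let M := RingHom.ker (evalEvalRingHom (0 : F) 0)
  have h1 : ∀ w ∈ M, θ w ∈ M • N := fun w hw => by
    suffices w ∈ M ∧ θ w ∈ M • N from this.2
    refine Submodule.span_induction (p := fun w _ => w ∈ M ∧ θ w ∈ M • N) ?_ (by simp)
      (fun x y _ _ hx hy => ⟨add_mem hx.1 hy.1, by rw [map_add]; exact add_mem hx.2 hy.2⟩)
      (fun r x _ hx => ⟨M.smul_mem r hx.1, ?_⟩) (hX hw)
    · rintro _ ⟨d, hd, rfl⟩
      exact ⟨hd, by rw [h0]; exact zero_mem _⟩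
    · rw [smul_eq_mul, θ.leibniz]
      exact add_mem (Submodule.smul_mem _ r hx.2) (Submodule.smul_mem_smul hx.1 (hN r))
  have h2 : ∀ d, θ (C (C ((ι d).evalEval 0 0))) ∈ M • N := fun d => by
    simpa [h0] using h1 (C (C ((ι d).evalEval 0 0)) - ι d) (by simp [M, RingHom.mem_ker, evalEval])
  have h3 : ∀ c, θ (C (C c)) ∈ M • N := fun c => by
    obtain ⟨a, b, hb, e⟩ := hfr c
    have k1 := h2 a
    rw [← (eq_div_iff hb).1 e, C_mul, C_mul, θ.leibniz] at k1
    have k2 := Submodule.smul_mem _ (C (C ((ι b).evalEval 0 0)⁻¹))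
      ((add_mem_cancel_left (Submodule.smul_mem _ _ (h2 b))).1 k1)
    rwa [smul_smul, ← C_mul, ← C_mul, inv_mul_cancel₀ hb, C_1, C_1, one_smul] at k2
  have h4 : ∀ b, θ b ∈ M • N := fun b => by
    simpa using add_mem (h1 (b - C (C (b.evalEval 0 0)))
      (by simp [M, RingHom.mem_ker, evalEval])) (h3 (b.evalEval 0 0))
  obtain ⟨r, hr, hr'⟩ := Submodule.exists_sub_one_mem_and_smul_eq_zero_of_fg_of_le_smul M N
    (Submodule.fg_span (((Set.finite_range _).insert _).insert _)) (Submodule.span_le.2 (by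
      rintro _ (rfl | rfl | ⟨i, rfl⟩) <;> exact h4 _))
  have hr0 : algebraMap F[X][X] L r ≠ 0 := by
    rw [map_ne_zero_iff _ (IsFractionRing.injective F[X][X] L)]
    rintro rfl
    simp [M, RingHom.mem_ker] at hr
  have h5 : ∀ b, KaehlerDifferential.D K L (algebraMap F[X][X] L b) = 0 := fun b => by
    have := hr' _ (hN b)
    rw [← algebraMap_smul L, smul_eq_zero] at this
    exact this.resolve_left hr0
  refine ⟨subsingleton_of_forall_eq 0 fun w => ?_⟩
  refine (Submodule.span_le (p := ⊥)).2 ?_ (span_range_derivation K L ▸ Submodule.mem_top (x := w))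
  rintro _ ⟨l, rfl⟩
  obtain ⟨x, y, -, rfl⟩ := IsFractionRing.div_surjective F[X][X] l
  simp [Derivation.leibniz_div, h5]

omit hc hfr in
theorem rank_le_of_span {κ : Type*} [Fintype κ] {g : κ → F}
    (hg : Submodule.span F (Set.range fun i => KaehlerDifferential.D ℤ F (g i)) = ⊤) :
    Module.rank L Ω[L⁄ℤ] ≤ (Fintype.card κ + 2 : ℕ) := by
  have := IsScalarTower.of_algebraMap_eq' (R := ℤ) (S := F[X][X]) (A := L) (RingHom.ext_int _ _)
  let θ : Derivation ℤ F[X][X] Ω[L⁄ℤ] := (KaehlerDifferential.D ℤ L).compAlgebraMap F[X][X]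
  let v : κ ⊕ Fin 2 → Ω[L⁄ℤ] := Sum.elim (fun i => θ (C (C (g i)))) ![θ X, θ (C X)]
  have hN : ∀ b, θ b ∈ Submodule.span L (Set.range v) :=
    der_mem hg θ ((Submodule.span L (Set.range v)).restrictScalars F[X][X])
      (fun i => Submodule.subset_span ⟨.inl i, rfl⟩) (Submodule.subset_span ⟨.inr 0, rfl⟩)
      (Submodule.subset_span ⟨.inr 1, rfl⟩)
  have h : Submodule.span L (Set.range v) = ⊤ := span_eq_top_of_D fun l => by
    obtain ⟨x, y, -, rfl⟩ := IsFractionRing.div_surjective F[X][X] l
    change _ ∈ derSubf (KaehlerDifferential.D ℤ L) (Submodule.span L (Set.range v))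
    exact div_mem (hN x) (hN y)
  rw [← rank_top, ← h]
  refine (rank_span_le _).trans (lift_le.1 ((mk_range_le_lift (f := v)).trans ?_))
  simp

end Main

end Pool.Agent.MP_f1fec5_al.Pol
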