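import Pool.Agent.MP_f1fec5_al.Pol.Pt

/-! The map of the model to power series in two variables, and continuity of derivations. -/

namespace Pool.Agent.MP_f1fec5_al.Pol

open Ideal Aff Aff.ModelAux Polynomial

universe u v

section Gen

variable {S T U : Type*} [CommRing S] [CommRing T] [CommRing U]

/-- a derivation along a ring homomorphism -/
def IsDer (π : S →+* T) (δ : S →+ T) : Prop := ∀ a b, δ (a * b) = π a * δ b + π b * δ a

lemma IsDer.comp {π : T →+* U} {δ : T →+ U} (h : IsDer π δ) (χ : S →+* T) :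
    IsDer (π.comp χ) (δ.comp χ.toAddMonoidHom) := fun a b => by
  simpa using h (χ a) (χ b)

/-- coefficientwise action on power series -/
noncomputable def cw (τ : S →+ T) : PowerSeries S →+ PowerSeries T :=
  AddMonoidHom.mk' (fun f => PowerSeries.mk fun n => τ (PowerSeries.coeff n f))
    fun f g => by ext n; simp

@[simp] lemma coeff_cw (τ : S →+ T) (f : PowerSeries S) (n : ℕ) :
    PowerSeries.coeff n (cw τ f) = τ (PowerSeries.coeff n f) := by simp [cw]

lemma IsDer.cw {π : S →+* T} {δ : S →+ T} (h : IsDer π δ) :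
    IsDer (PowerSeries.map π) (cw δ) := fun a b => by
  ext n
  rw [map_add, mul_comm (PowerSeries.map π b)]
  simp only [coeff_cw, PowerSeries.coeff_mul, map_sum, PowerSeries.coeff_map, h _ _,
    ← Finset.sum_add_distrib]
  exact Finset.sum_congr rfl fun p _ => by ring

lemma IsDer.cw_id {δ : S →+ S} (h : IsDer (RingHom.id S) δ) :
    IsDer (RingHom.id (PowerSeries S)) (Pol.cw δ) := by
  have := h.cw
  rwa [show PowerSeries.map (RingHom.id S) = RingHom.id _ from
    RingHom.ext fun f => by ext; simp] at this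

/-- the formal derivative -/
noncomputable def dx : PowerSeries S →+ PowerSeries S :=
  (PowerSeries.derivative S).toLinearMap.toAddMonoidHom

@[simp] lemma coeff_dx (f : PowerSeries S) (n : ℕ) :
    PowerSeries.coeff n (dx f) = PowerSeries.coeff (n + 1) f * (n + 1) :=
  PowerSeries.coeff_derivative f n

lemma isDer_dx : IsDer (RingHom.id (PowerSeries S)) dx := fun a b =>
  (PowerSeries.derivative S).leibniz a b

variable (S) in
/-- power series whose coefficients in a square vanish -/
def JJ (k : ℕ) : Ideal (PowerSeries (PowerSeries S)) where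
  carrier := {f | ∀ i < k, ∀ j < k, PowerSeries.coeff j (PowerSeries.coeff i f) = 0}
  add_mem' := fun ha hb i hi j hj => by simp [ha i hi j hj, hb i hi j hj]
  zero_mem' := fun i _ j _ => by simp
  smul_mem' := fun c f hf i hi j hj => by
    simp only [smul_eq_mul, PowerSeries.coeff_mul, map_sum]
    refine Finset.sum_eq_zero fun p hp => Finset.sum_eq_zero fun q hq => ?_
    rw [Finset.HasAntidiagonal.mem_antidiagonal] at hp hq
    rw [hf p.2 (by omega) q.2 (by omega), mul_zero]

lemma eq_zero_of_JJ {f : PowerSeries (PowerSeries S)} (h : ∀ k, f ∈ JJ S k) : f = 0 := by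
  ext i j
  simpa using h (i + j + 1) i (by omega) j (by omega)

lemma JJ_anti {k l : ℕ} (h : k ≤ l) : JJ S l ≤ JJ S k :=
  fun _ hf i hi j hj => hf i (by omega) j (by omega)

lemma cw_JJ (τ : S →+ T) {k : ℕ} {f : PowerSeries (PowerSeries S)} (h : f ∈ JJ S k) :
    cw (cw τ) f ∈ JJ T k := fun i hi j hj => by simp [h i hi j hj]

lemma map_JJ (τ : S →+* T) {k : ℕ} {f : PowerSeries (PowerSeries S)} (h : f ∈ JJ S k) :
    PowerSeries.map (PowerSeries.map τ) f ∈ JJ T k := fun i hi j hj => by simp [h i hi j hj]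

lemma dx_JJ {k : ℕ} {f : PowerSeries (PowerSeries S)} (h : f ∈ JJ S (k + 1)) :
    dx f ∈ JJ S k := fun i hi j hj => by
  have := h (i + 1) (by omega) j (by omega)
  rw [coeff_dx, ← Nat.cast_succ, ← nsmul_eq_mul', map_nsmul, this, nsmul_zero]

lemma cw_dx_JJ {k : ℕ} {f : PowerSeries (PowerSeries S)} (h : f ∈ JJ S (k + 1)) :
    cw dx f ∈ JJ S k := fun i hi j hj => by simp [h i (by omega) (j + 1) (by omega)]

variable (S) in
/-- polynomials as power series -/
noncomputable def bt : S[X][X] →+* PowerSeries (PowerSeries S) :=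
  coeToPowerSeries.ringHom.comp (mapRingHom coeToPowerSeries.ringHom)

@[simp] lemma coeff_bt (r : S[X][X]) (i j : ℕ) :
    PowerSeries.coeff j (PowerSeries.coeff i (bt S r)) = (r.coeff i).coeff j := by
  simp [bt]

lemma rs_pow (k l : ℕ) : RS (X ^ k : S[X][X]) (C (X ^ l)) :=
  rs_monic (monic_X_pow _) (monic_X_pow l).mem_nonZeroDivisors

lemma bt_mem1 {k l : ℕ} (h : k ≤ l) : bt S (X ^ l) ∈ JJ S k := fun i hi j _ => by
  rw [coeff_bt, coeff_X_pow, if_neg (by omega), coeff_zero]

lemma bt_mem2 {k l : ℕ} (h : k ≤ l) : bt S (C (X ^ l)) ∈ JJ S k := fun i _ j hj => by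
  rw [coeff_bt, coeff_C]
  split_ifs
  · rw [coeff_X_pow, if_neg (by omega)]
  · rfl

lemma II_le_JJ {k l : ℕ} (h : k ≤ l) :
    II (X ^ l : S[X][X]) (C (X ^ l)) ≤ (JJ S k).comap (bt S) :=
  sup_le ((span_singleton_le_iff_mem _).2 (bt_mem1 h)) ((span_singleton_le_iff_mem _).2 (bt_mem2 h))

lemma h2_pow {k l : ℕ} (h : k ≤ l) :
    H2 (X ^ l : S[X][X]) (C (X ^ l)) (X ^ k) (C (X ^ k)) ((JJ S k).comap (bt S)) := by
  obtain ⟨n, rfl⟩ := Nat.exists_eq_add_of_le h
  intro a b c d e
  rw [pow_add, pow_add, C_mul] at e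
  obtain ⟨s, rfl⟩ := (rs_pow (k + n + k) k).symm.dv a ⟨-(b * C (X ^ n) * C (X ^ k) +
    c * X ^ (k + n) + d * C (X ^ n) * X ^ k), by
      rw [pow_add, pow_add]; linear_combination e⟩
  obtain ⟨t, rfl⟩ := (rs_pow k (k + n + k)).dv b ⟨-(C (X ^ k) * s * X ^ (k + n) +
    c * X ^ n * C (X ^ k) + d * C (X ^ n) * C (X ^ k)), by
      rw [pow_add, pow_add, C_mul, C_mul, pow_add]; linear_combination e⟩
  exact ⟨mul_mem_right _ _ (II_le_JJ le_rfl right_mem_II),
    mul_mem_right _ _ (II_le_JJ le_rfl left_mem_II)⟩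

end Gen

section Psi

variable {A : Type u} {D : Type v} [CommRing A] [CommRing D] (m : Model A[X][X] D)

/-- the limit of the coordinates -/
noncomputable def psi0 (d : D) : PowerSeries (PowerSeries A) :=
  PowerSeries.mk fun i => PowerSeries.mk fun j =>
    ((rr m (rs_pow (max i j + 1) (max i j + 1)) d).coeff i).coeff j

lemma psi0_sub (d : D) (k : ℕ) : psi0 m d - bt A (rr m (rs_pow k k) d) ∈ JJ A k := by
  intro i hi j hj
  have h : max i j + 1 ≤ k := by omega
  have := rr_compat m (rs_pow k k) (rs_pow (max i j + 1) (max i j + 1)) (II_le_JJ h)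
    (II_le_JJ le_rfl) (h2_pow h) d i (by omega) j (by omega)
  rw [coeff_bt, coeff_sub, coeff_sub, sub_eq_zero] at this
  rw [map_sub, map_sub, coeff_bt, this, psi0, PowerSeries.coeff_mk, PowerSeries.coeff_mk, sub_self]

/-- the coordinate homomorphism at level `k` -/
noncomputable def sk (k : ℕ) : D →+* PowerSeries (PowerSeries A) ⧸ JJ A k :=
  sig m (rs_pow k k) ((Ideal.Quotient.mk _).comp (bt A))
    (Ideal.Quotient.eq_zero_iff_mem.2 (bt_mem1 le_rfl))
    (Ideal.Quotient.eq_zero_iff_mem.2 (bt_mem2 le_rfl))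

lemma mk_psi0 (d : D) (k : ℕ) : Ideal.Quotient.mk (JJ A k) (psi0 m d) = sk m k d :=
  Ideal.Quotient.eq.2 (psi0_sub m d k)

omit m in
lemma eq_of_mk {a b : PowerSeries (PowerSeries A)}
    (h : ∀ k, Ideal.Quotient.mk (JJ A k) a = Ideal.Quotient.mk (JJ A k) b) : a = b :=
  sub_eq_zero.1 (eq_zero_of_JJ fun k => Ideal.Quotient.eq.1 (h k))

/-- the homomorphism to power series -/
noncomputable def psi : D →+* PowerSeries (PowerSeries A) :=
  RingHom.mk' ⟨⟨psi0 m, eq_of_mk fun k => by simp [mk_psi0]⟩,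
    fun a b => eq_of_mk fun k => by simp [mk_psi0]⟩ fun a b => eq_of_mk fun k => by simp [mk_psi0]

variable [IsDomain D]

lemma psi_dense (r : A[X][X]) (k : ℕ) : ∃ d, psi m d - bt A r ∈ JJ A k := by
  obtain ⟨d, hd⟩ := sig_surj m (rs_pow k k) (χ := (Ideal.Quotient.mk _).comp (bt A))
    (Ideal.Quotient.eq_zero_iff_mem.2 (bt_mem1 le_rfl))
    (Ideal.Quotient.eq_zero_iff_mem.2 (bt_mem2 le_rfl)) r
  exact ⟨d, Ideal.Quotient.eq.1 ((mk_psi0 m d k).trans hd)⟩

lemma psi_dvd {d : D} (hd : d ≠ 0) {s : A[X][X]} (hs : s ∈ Iof m d) (k : ℕ) :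
    ∃ c, c * psi m d - bt A s ∈ JJ A k := by
  have := mem_map_of_mem ((Ideal.Quotient.mk (JJ A k)).comp (bt A)) hs
  rw [sig_map m (rs_pow k k) (χ := (Ideal.Quotient.mk (JJ A k)).comp (bt A))
    (Ideal.Quotient.eq_zero_iff_mem.2 (bt_mem1 le_rfl)) (Ideal.Quotient.eq_zero_iff_mem.2 (bt_mem2 le_rfl)) hd] at this
  obtain ⟨c, hc⟩ := mem_span_singleton'.1 this
  obtain ⟨c, rfl⟩ := Ideal.Quotient.mk_surjective c
  refine ⟨c, Ideal.Quotient.eq.1 ?_⟩
  rw [map_mul]
  exact (congrArg _ (mk_psi0 m d k)).trans hc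

include m in
theorem no_der {F : Type*} [Field F] (φ : A →+* F)
    (hφ : ∀ s ∈ nonZeroDivisors A[X][X], m2 φ s ≠ 0) {δ : A →+ F} (hδ : IsDer φ δ) {ν : A}
    (hν : φ ν = 0) (hν' : δ ν ≠ 0) {κ : Type*} [Fintype κ] [DecidableEq κ] (g : κ → A)
    (p : κ → F →+ F) (hp : ∀ i, IsDer (RingHom.id F) (p i))
    (hg : ∀ i j, p j (φ (g i)) = if i = j then 1 else 0)
    (hdep : ∀ π : D →+* PowerSeries (PowerSeries F), Function.Injective π →
      ∀ δ : κ ⊕ Fin 3 → D →+ PowerSeries (PowerSeries F), (∀ i, IsDer π (δ i)) →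
        ∃ a : κ ⊕ Fin 3 → PowerSeries (PowerSeries F), a ≠ 0 ∧ ∀ d, ∑ i, a i * δ i d = 0) :
    False := by
  let φ' := PowerSeries.map (PowerSeries.map φ)
  let π := φ'.comp (psi m)
  have hπ : Function.Injective π := (injective_iff_map_eq_zero _).2 fun d hd => by
    by_contra hd0
    obtain ⟨s, hs, hs'⟩ := (Iof_spec m hd0).1
    refine hφ s hs' ?_
    ext i j
    obtain ⟨c, hc⟩ := psi_dvd m hd0 hs (i + j + 1)
    have := map_JJ φ hc
    rw [map_sub, map_mul, show PowerSeries.map (PowerSeries.map φ) (psi m d) = 0 from hd] at this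
    simpa using this i (by omega) j (by omega)
  have d1 : ∀ i, IsDer (RingHom.id _) (cw (cw (p i))) := fun i => (hp i).cw_id.cw_id
  have d2 : IsDer (RingHom.id (PowerSeries (PowerSeries F))) (cw dx) := isDer_dx.cw_id
  obtain ⟨a, ha, h⟩ := hdep π hπ (Sum.elim (fun i => (cw (cw (p i))).comp π.toAddMonoidHom)
    ![(cw (cw δ)).comp (psi m).toAddMonoidHom, (cw dx).comp π.toAddMonoidHom,
      dx.comp π.toAddMonoidHom]) (by
    rintro (i | i)
    · exact (d1 i).comp π
    · fin_cases i
      exacts [hδ.cw.cw.comp (psi m), d2.comp π, isDer_dx.comp π])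
  let θ : PowerSeries (PowerSeries F) → PowerSeries (PowerSeries F) := fun f =>
    ∑ i, a (.inl i) * cw (cw (p i)) f + a (.inr 1) * cw dx f + a (.inr 2) * dx f
  have hθ : ∀ d, a (.inr 0) * cw (cw δ) (psi m d) = -θ (π d) := fun d => by
    have := h d
    rw [Fintype.sum_sum_type, Fin.sum_univ_three] at this
    change ∑ i, a (.inl i) * cw (cw (p i)) (π d) + (a (.inr 0) * cw (cw δ) (psi m d) +
      a (.inr 1) * cw dx (π d) + a (.inr 2) * dx (π d)) = 0 at this
    simp only [θ]
    linear_combination this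
  have hJ : ∀ k f f', f - f' ∈ JJ F (k + 1) → θ f - θ f' ∈ JJ F k := fun k f f' hf => by
    have e : θ f - θ f' = θ (f - f') := by
      simp only [θ, map_sub, mul_sub, Finset.sum_sub_distrib]
      ring
    rw [e]
    exact add_mem (add_mem (Ideal.sum_mem _ fun i _ => mul_mem_left _ _
      (JJ_anti (Nat.le_succ k) (cw_JJ _ hf))) (mul_mem_left _ _ (cw_dx_JJ hf)))
      (mul_mem_left _ _ (dx_JJ hf))
  have h0 : a (.inr 0) = 0 := eq_zero_of_JJ fun k => by
    obtain ⟨d, hd⟩ := psi_dense m (C (C ν)) (k + 1)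
    have k1 : π d - 0 ∈ JJ F (k + 1) := fun i hi j hj => by
      have := map_JJ φ hd i hi j hj
      simp only [map_sub, PowerSeries.coeff_map, coeff_bt, coeff_C] at this
      simp only [sub_zero, π, φ', RingHom.comp_apply, PowerSeries.coeff_map]
      rw [sub_eq_zero.1 this]
      split_ifs
      · rw [coeff_C]
        split_ifs <;> simp [hν]
      · simp
    have k2 : IsUnit (cw (cw δ) (psi m d)) := by
      rw [PowerSeries.isUnit_iff_constantCoeff, PowerSeries.isUnit_iff_constantCoeff]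
      have := hd 0 (by omega) 0 (by omega)
      simp only [map_sub, coeff_bt, coeff_C_zero, sub_eq_zero] at this
      rw [← PowerSeries.coeff_zero_eq_constantCoeff_apply,
        ← PowerSeries.coeff_zero_eq_constantCoeff_apply, coeff_cw, coeff_cw, this]
      exact hν'.isUnit
    rw [← (JJ F k).mul_unit_mem_iff_mem k2, hθ, neg_mem_iff]
    simpa [θ] using hJ k _ _ k1
  have h1 : ∀ r, θ (φ' (bt A r)) = 0 := fun r => eq_zero_of_JJ fun k => by
    obtain ⟨d, hd⟩ := psi_dense m r (k + 1)
    have := hJ k (π d) (φ' (bt A r)) (by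
      rw [RingHom.comp_apply, ← map_sub]; exact map_JJ φ hd)
    have k1 := hθ d
    rw [h0, zero_mul, zero_eq_neg] at k1
    simpa [k1] using this
  have hone : ∀ i, p i 1 = 0 := fun i => by simpa using hp i 1 1
  have c1 : ∀ (τ : F →+ F) (c : F), cw (cw τ) (PowerSeries.C (PowerSeries.C c)) =
      PowerSeries.C (PowerSeries.C (τ c)) := fun τ c => by
    ext i j
    simp only [coeff_cw, PowerSeries.coeff_C]
    split_ifs <;> simp only [PowerSeries.coeff_C, map_zero]
    split_ifs <;> simp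
  apply ha
  funext i
  rcases i with i | i
  · have := h1 (C (C (g i)))
    have e : φ' (bt A (C (C (g i)))) = PowerSeries.C (PowerSeries.C (φ (g i))) := by
      simp [φ', bt]
    have e2 : cw dx (PowerSeries.C (PowerSeries.C (φ (g i)))) = 0 := by
      ext i j
      simp only [coeff_cw, PowerSeries.coeff_C]
      split_ifs <;> simp
    have e3 : dx (PowerSeries.C (PowerSeries.C (φ (g i)))) = 0 := by
      ext1 i
      simp
    simpa [θ, e, e2, e3, c1, hg, apply_ite] using this
  · fin_cases i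
    · exact h0
    · have := h1 (C X)
      have e : φ' (bt A (C X)) = PowerSeries.C PowerSeries.X := by simp [φ', bt]
      have e1 : ∀ i, cw (cw (p i)) (PowerSeries.C PowerSeries.X) = 0 := fun i => by
        ext i j
        simp only [coeff_cw, PowerSeries.coeff_C]
        split_ifs <;> simp [PowerSeries.coeff_X, apply_ite, hone]
      have e2 : cw dx (PowerSeries.C (PowerSeries.X : PowerSeries F)) = 1 := by
        ext i j
        simp only [coeff_cw, PowerSeries.coeff_C, PowerSeries.coeff_one]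
        split_ifs <;> simp [PowerSeries.coeff_X, PowerSeries.coeff_one]
        split_ifs with h <;> simp [h]
      have e3 : dx (PowerSeries.C (PowerSeries.X : PowerSeries F)) = 0 := by
        ext1 i
        simp
      simpa [θ, e, e1, e2, e3] using this
    · have := h1 X
      have e : φ' (bt A X) = PowerSeries.X := by simp [φ', bt]
      have e1 : ∀ τ : PowerSeries F →+ PowerSeries F, τ 1 = 0 → cw τ PowerSeries.X = 0 :=
        fun τ hτ => by
          ext1 i
          simp [PowerSeries.coeff_X, apply_ite, hτ]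
      have e2 : ∀ i, cw (p i) 1 = 0 := fun i => by
        ext j
        simp [PowerSeries.coeff_one, apply_ite, hone]
      have e3 : dx (1 : PowerSeries F) = 0 := by
        ext j
        simp [PowerSeries.coeff_one]
      have e4 : dx (PowerSeries.X : PowerSeries (PowerSeries F)) = 1 := PowerSeries.derivative_X
      simpa [θ, e, e1, e2, e3, e4] using this

end Psi

end Pool.Agent.MP_f1fec5_al.Pol
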